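import Pool.Agent.MP_48470b_gt.TT.Slot

/-! The constants and the constructor `mkT` in the tensor layout. -/

open Finset

namespace Pool.Agent.MP_48470b_gt.TT

open TM hiding T W Cfg hor ones bs hor_eq ones_eq bs_eq

theorem p2_eq (k : ℕ) : p2 k = 2 ^ k := rfl
theorem m2_eq (k : ℕ) : m2 k = 2 ^ k - 1 := rfl
theorem land_m2 (k x : ℕ) : Nat.land (m2 k) x = x % 2 ^ k :=
  (Nat.and_comm _ _).trans (Nat.and_two_pow_sub_one_eq_mod x k)

theorem ones_eq {w : ℕ} (hw : 0 < w) (n : ℕ) : ones w n = pk w n fun _ => 1 := TM.ones_eq hw n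

theorem hor_eq (W n : ℕ) (f : ℕ → ℕ) : hor W n f = pk W n f := TM.hor_eq W n f

theorem sm_eq (n : ℕ) (f : ℕ → ℕ) : sm n f = ∑ i ∈ range n, f i := by
  induction n with
  | zero => rfl
  | succ n ih => rw [sum_range_succ, ← ih]; rfl

theorem bs_eq (W v M0 k x : ℕ) (hx : x < 2 ^ (W * 2 ^ k)) :
    bs W v M0 k x = pk v (2 ^ k) fun m => dig W x m % M0 := by
  rw [← TM.bs_eq W v M0 k x hx]
  clear hx
  induction k generalizing x with
  | zero => rfl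
  | succ k ih =>
    have e : bs W v M0 (k + 1) x = cond (Nat.beq x 0) 0 (bs W v M0 k (Nat.land (msk W k) x) +
      bs W v M0 k (x >>> (W * 2 ^ k)) <<< (v * 2 ^ k)) := rfl
    rw [e]
    cases h : Nat.beq x 0
    · rw [ih, ih, show Nat.land (msk W k) x = x &&& (2 ^ (W * 2 ^ k) - 1) from Nat.and_comm _ _]
      rfl
    · rw [Nat.eq_of_beq_eq_true h, TM.bs_eq _ _ _ _ _ (by positivity)]
      simp [pk, dig]

theorem fold_eq (W k x : ℕ) (hx : x < 2 ^ (W * 2 ^ k))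
    (hs : ∑ m ∈ range (2 ^ k), dig W x m < 2 ^ W) :
    fold W k x = ∑ m ∈ range (2 ^ k), dig W x m := by
  induction k generalizing x with
  | zero =>
    rw [pow_zero, mul_one] at hx
    simp [fold, dig, Nat.mod_eq_of_lt hx]
  | succ k ih =>
    have e : fold W (k + 1) x =
      fold W k (Nat.land (m2 (W * 2 ^ k)) x + x >>> (W * 2 ^ k)) := rfl
    have h1 : x / 2 ^ (W * 2 ^ k) < 2 ^ (W * 2 ^ k) := Nat.div_lt_of_lt_mul (by
      rwa [← pow_add, ← mul_add, ← two_mul, ← pow_succ'])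
    rw [pow_succ, mul_two, sum_range_add, ← sum_add_distrib] at hs ⊢
    have h2 : ∀ m < 2 ^ k, dig W x m + dig W x (2 ^ k + m) < 2 ^ W := fun m hm =>
      (single_le_sum (f := fun m => dig W x m + dig W x (2 ^ k + m)) (fun _ _ => Nat.zero_le _)
        (mem_range.2 hm)).trans_lt hs
    have h3 : Nat.land (m2 (W * 2 ^ k)) x + x >>> (W * 2 ^ k) =
        pk W (2 ^ k) fun m => dig W x m + dig W x (2 ^ k + m) := by
      rw [land_m2, Nat.shiftRight_eq_div_pow, ← pk_add, pk_dig]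
      congr 1
      rw [← Nat.mod_eq_of_lt h1, ← pk_dig]
      exact pk_congr fun t _ => dig_div _ _ _ _
    have h4 : ∑ m ∈ range (2 ^ k), dig W (pk W (2 ^ k) fun m => dig W x m + dig W x (2 ^ k + m)) m
        = ∑ m ∈ range (2 ^ k), (dig W x m + dig W x (2 ^ k + m)) :=
      sum_congr rfl fun m hm => dig_pk h2 (mem_range.1 hm)
    rw [e, h3, ih _ (pk_lt h2) (h4 ▸ hs), h4]

theorem pk_sum_comm (w n m : ℕ) (f : ℕ → ℕ → ℕ) :
    ∑ i ∈ range m, pk w n (f i) = pk w n fun t => ∑ i ∈ range m, f i t := by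
  simp only [pk, sum_mul]
  exact sum_comm

theorem bs_pk {w v a b l : ℕ} {g : ℕ → ℕ} (ha : a ≤ 2 ^ l)
    (hs : ∑ t ∈ range (a * b), g t < 2 ^ w - 1) :
    bs (w * b) v (2 ^ w - 1) l (pk w (a * b) g) =
      pk v a fun m => ∑ s ∈ range b, g (m * b + s) := by
  rw [sum_range_mul'] at hs
  have h1 : ∀ m < a, ∑ s ∈ range b, g (m * b + s) < 2 ^ w - 1 := fun m hm =>
    (single_le_sum (f := fun m => ∑ s ∈ range b, g (m * b + s)) (fun _ _ => Nat.zero_le _)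
      (mem_range.2 hm)).trans_lt hs
  have h2 : ∀ m < a, pk w b (fun s => g (m * b + s)) < 2 ^ (w * b) := fun m hm =>
    pk_lt fun s hs => ((single_le_sum (f := fun s => g (m * b + s)) (fun _ _ => Nat.zero_le _)
      (mem_range.2 hs)).trans_lt (h1 m hm)).trans_le (Nat.sub_le _ _)
  have l1 := pk_lt h2
  rw [pk_pk, bs_eq _ _ _ _ _ (l1.trans_le (Nat.pow_le_pow_right two_pos
    (Nat.mul_le_mul_left _ ha))), pk_ext ha fun t h1 _ => by rw [dig_zero l1 h1, Nat.zero_mod]]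
  exact pk_congr fun m hm => by rw [dig_pk h2 hm, pk_sum (h1 m hm)]

theorem fold_pk {w a b l : ℕ} {g : ℕ → ℕ} (ha : a ≤ 2 ^ l)
    (hs : ∑ t ∈ range (a * b), g t < 2 ^ w) :
    fold (w * b) l (pk w (a * b) g) = pk w b fun s => ∑ m ∈ range a, g (m * b + s) := by
  rw [sum_range_mul', sum_comm] at hs
  have h1 : ∀ s < b, ∑ m ∈ range a, g (m * b + s) < 2 ^ w := fun s h =>
    (single_le_sum (f := fun s => ∑ m ∈ range a, g (m * b + s)) (fun _ _ => Nat.zero_le _)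
      (mem_range.2 h)).trans_lt hs
  have h2 : ∀ m < a, pk w b (fun s => g (m * b + s)) < 2 ^ (w * b) := fun m hm =>
    pk_lt fun s hs => (single_le_sum (f := fun m => g (m * b + s)) (fun _ _ => Nat.zero_le _)
      (mem_range.2 hm)).trans_lt (h1 s hs)
  have l1 := pk_lt h2
  have h3 : ∑ m ∈ range (2 ^ l), dig (w * b) (pk (w * b) a fun m => pk w b fun s => g (m * b + s)) m
      = pk w b fun s => ∑ m ∈ range a, g (m * b + s) := by
    rw [← sum_subset (range_subset_range.2 ha) fun m _ hm => dig_zero l1 (by simpa using hm),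
      sum_congr rfl fun m hm => dig_pk h2 (mem_range.1 hm), pk_sum_comm]
  rw [pk_pk, fold_eq _ _ _ (l1.trans_le (Nat.pow_le_pow_right two_pos
    (Nat.mul_le_mul_left _ ha))) (h3 ▸ pk_lt h1), h3]

theorem pk_lt' {w n : ℕ} {f : ℕ → ℕ} (hn : 0 < n) (h : ∀ t < n, f t < 2 ^ w - 1) :
    pk w n f < 2 ^ (w * n) - 1 := by
  have h1 := pk_lt (w := w) (n := n) (f := fun t => f t + 1) fun t ht => by have := h t ht; omega
  have h2 : 1 * 2 ^ (w * 0) ≤ pk w n fun _ => 1 :=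
    single_le_sum (f := fun t => 1 * 2 ^ (w * t)) (fun _ _ => Nat.zero_le _) (mem_range.2 hn)
  rw [← pk_add] at h1
  rw [mul_zero] at h2
  omega

theorem suf_div {w n : ℕ} {g : ℕ → ℕ} (hs : ∑ t ∈ range n, g t < 2 ^ w - 1) :
    pk w n g <<< w / (2 ^ w - 1) = pk w n fun s => ∑ t ∈ Ico s n, g t := by
  obtain ⟨m, hm⟩ : ∃ m, 2 ^ w = m + 1 := ⟨2 ^ w - 1, by omega⟩
  have e : pk w n g <<< w = ∑ t ∈ range n, g t + m * pk w n fun s => ∑ t ∈ Ico s n, g t := by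
    simp only [Nat.shiftLeft_eq, pk, pow_mul, hm, sum_mul, mul_sum, range_eq_Ico]
    rw [sum_Ico_Ico_comm, ← sum_add_distrib]
    refine sum_congr rfl fun t _ => ?_
    rw [mul_assoc, ← pow_succ, ← geom_sum_mul_add m (t + 1), range_eq_Ico, mul_add, sum_mul,
      mul_sum, mul_one, add_comm]
    exact congrArg _ (sum_congr rfl fun s _ => by ring)
  rw [hm, Nat.add_sub_cancel] at hs ⊢
  rw [e, Nat.add_mul_div_left _ _ (by omega), Nat.div_eq_of_lt hs, zero_add]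

namespace Cfg

variable {c : Cfg}

theorem sg_pk {a b : ℕ} {g : ℕ → ℕ} (hb : 0 < b) (hs : ∑ t ∈ range (a * b), g t < 2 ^ c.w - 1) :
    c.sg (c.w * b) (hor (c.w * b) a fun _ => c.mw) (pk c.w (a * b) g) =
      pk (c.w * b) a fun m => ∑ s ∈ range b, g (m * b + s) := by
  set σ : ℕ → ℕ := fun s => ∑ t ∈ Ico s (a * b), g t with hσ
  have h1 : ∀ s, σ s < 2 ^ c.w := fun s => lt_of_le_of_lt (sum_le_sum_of_subset fun t ht =>
    mem_range.2 (mem_Ico.1 ht).2) (hs.trans_le (Nat.sub_le _ _))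
  have h2 : 2 ^ c.w ≤ 2 ^ (c.w * b) := Nat.pow_le_pow_right two_pos (Nat.le_mul_of_pos_right _ hb)
  have e1 : Nat.land (pk (c.w * b) a fun _ => 2 ^ c.w - 1) (pk c.w (a * b) σ) =
      pk (c.w * b) a fun m => σ (m * b) := by
    refine (Nat.and_comm _ _).trans ?_
    rw [land_pk fun t _ => by omega, pk_pk]
    refine pk_congr fun m hm => ?_
    obtain ⟨b, rfl⟩ := Nat.exists_eq_add_of_le hb
    have h3 := pk_mod (w := c.w) (a := 1) (b := b) (f := fun j => σ (m * (1 + b) + j))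
      fun t _ => h1 _
    rw [mul_one] at h3
    rw [dig_pk (fun t _ => pk_lt fun _ _ => h1 _) hm, Nat.and_two_pow_sub_one_eq_mod, h3]
    simp [pk]
  have e2 : (pk (c.w * b) a fun m => σ (m * b)) / 2 ^ (c.w * b) =
      pk (c.w * b) a fun m => σ ((1 + m) * b) := by
    have h3 := pk_div (w := c.w * b) (a := 1) (b := a) (f := fun m => σ (m * b))
      fun t _ => (h1 _).trans_le h2
    rw [mul_one, add_comm, pk, sum_range_succ] at h3
    simpa [hσ, pk] using h3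
  have e3 : ∀ m < a, σ (m * b) = ∑ s ∈ range b, g (m * b + s) + σ ((1 + m) * b) := fun m hm => by
    have h3 := Nat.mul_le_mul_right b (show 1 + m ≤ a by omega)
    have h4 := sum_Ico_consecutive g (show m * b ≤ (1 + m) * b by rw [add_mul]; omega) h3
    rw [sum_Ico_eq_sum_range, add_mul, one_mul, Nat.add_sub_cancel] at h4
    simp only [hσ, add_mul, one_mul, h4]
  rw [show ∀ W K x, c.sg W K x = Nat.land K (x <<< c.w / (2 ^ c.w - 1)) -
    Nat.land K (x <<< c.w / (2 ^ c.w - 1)) >>> W from fun _ _ _ => rfl, hor_eq, suf_div hs,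
    show c.mw = 2 ^ c.w - 1 from rfl, e1, Nat.shiftRight_eq_div_pow, e2,
    pk_sub fun m hm => by rw [e3 m hm]; omega]
  exact pk_congr fun m hm => by rw [e3 m hm, Nat.add_sub_cancel]

theorem fd_pk {W a : ℕ} {F : ℕ → ℕ} (ha : a ≤ 2 ^ c.l) (hs : ∑ m ∈ range a, F m < 2 ^ W - 1) :
    c.fd W (m2 W) (pk W a F) = ∑ m ∈ range a, F m := by
  unfold fd
  cases c.sml
  · have h := fold_pk (w := W) (b := 1) (g := F) ha (by rw [mul_one]; omega)
    simpa [pk] using h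
  · exact pk_sum hs

theorem blk_lt {a b : ℕ} {g : ℕ → ℕ} (hb : 0 < b) (hs : ∑ t ∈ range (a * b), g t < 2 ^ c.w - 1) :
    ∑ m ∈ range a, pk c.w b (fun s => g (m * b + s)) < 2 ^ (c.w * b) - 1 := by
  rw [sum_range_mul', sum_comm] at hs
  rw [pk_sum_comm]
  exact pk_lt' hb fun s h => (single_le_sum (f := fun s => ∑ m ∈ range a, g (m * b + s))
    (fun _ _ => Nat.zero_le _) (mem_range.2 h)).trans_lt hs

theorem Ok.pow_u (hc : c.Ok) : 2 ^ c.u = 2 * 2 ^ (c.u - 1) := by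
  rw [← pow_succ', Nat.sub_add_cancel hc.1]

theorem Ok.N_ge (hc : c.Ok) : 27 ≤ c.N :=
  Nat.mul_le_mul hc.2.1.1 (Nat.mul_le_mul hc.2.1.2.1 hc.2.1.2.2)

theorem Ok.ult (hc : c.Ok) : 2 ^ c.u < 2 ^ c.w := by
  have h1 := Nat.mul_le_mul_right (2 ^ (c.u - 1)) hc.N_ge
  have := hc.2.2.2.1
  have := hc.pow_u
  omega

theorem Ok.u_lt (hc : c.Ok) : c.u < c.w := (Nat.pow_lt_pow_iff_right one_lt_two).1 hc.ult

theorem VO_eq (hc : c.Ok) : c.VO = pk c.w c.N fun _ => 1 := by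
  rw [VO, hor_eq, ones_eq (by have := hc.u_lt; omega), N_eq, pk_pk]
  rfl

theorem VO_mul (hc : c.Ok) (k : ℕ) : c.VO * k = pk c.w c.N fun _ => k := by
  simp only [VO_eq hc, pk_mul, one_mul]

theorem Hb_eq (hc : c.Ok) : c.Hb = pk c.w c.N fun _ => 2 ^ (c.u - 1) :=
  (Nat.shiftLeft_eq _ _).trans (VO_mul hc _)

theorem VO_sub (hc : c.Ok) (k : ℕ) : c.VO <<< k - c.VO = pk c.w c.N fun _ => 2 ^ k - 1 := by
  rw [Nat.shiftLeft_eq, ← Nat.mul_sub_one, VO_mul hc]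

theorem Hb_lt (hc : c.Ok) : c.Hb < c.Q := by
  rw [Hb_eq hc]
  exact pk_lt fun t _ => Nat.pow_lt_pow_right one_lt_two (by have := hc.u_lt; have := hc.1; omega)

/-- offset digits -/
def de (c : Cfg) (D t : ℕ) : ℕ := dig c.w D t % 2 ^ c.u

theorem ldc_eq (D t : ℕ) : c.ldc D t = (c.de D t : ℤ) - 2 ^ (c.u - 1) := rfl

theorem de_lt (D t : ℕ) : c.de D t < 2 ^ c.u := Nat.mod_lt _ (by positivity)

theorem land_VM (hc : c.Ok) (D : ℕ) : Nat.land c.VM D = pk c.w c.N (c.de D) := by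
  rw [show Nat.land c.VM D = D &&& (c.VO <<< c.u - c.VO) from Nat.and_comm _ _, VO_sub hc,
    land_pk fun t _ => (Nat.sub_le _ _).trans_lt hc.ult]
  exact pk_congr fun t _ => Nat.and_two_pow_sub_one_eq_mod _ _

theorem de_pk' (hc : c.Ok) {e : ℕ → ℕ} (he : ∀ t < c.N, e t < 2 ^ c.u) {t : ℕ} (ht : t < c.N) :
    c.de (pk c.w c.N e) t = e t := by
  rw [de, dig_pk (fun s hs => (he s hs).trans hc.ult) ht, Nat.mod_eq_of_lt (he t ht)]

theorem mkT_U (hc : c.Ok) (D r : ℕ) : (c.mkT D r).U = pk c.w c.N (c.de D) + c.QH := by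
  rw [← land_VM hc]; rfl

theorem ldc_mkT (hc : c.Ok) (D r : ℕ) {t : ℕ} (ht : t < c.N) :
    c.ldc ((c.mkT D r).U - c.QH) t = c.ldc D t := by
  rw [mkT_U hc, Nat.add_sub_cancel, ldc_eq, ldc_eq, de_pk' hc (fun s _ => de_lt D s) ht]

theorem mkT_enc (hc : c.Ok) (D r : ℕ) : ((c.mkT D r).U : ℤ) = c.enc (c.ldc D) + c.Q := by
  rw [mkT_U hc, show c.QH = c.Q - c.Hb from rfl, Nat.cast_add, Nat.cast_sub (Hb_lt hc).le, Hb_eq hc,
    pk_cast, pk_cast, enc]
  simp only [ldc_eq, sub_mul, sum_sub_distrib]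
  push_cast
  ring

theorem nm_le {f : ℕ → ℤ} {g : ℕ → ℕ} (h : ∀ t, |f t| ≤ g t) (i : Fin 3) (p : ℕ) :
    c.nm i f p ≤ (∑ a ∈ range c.B0, ∑ b ∈ range c.B1, ∑ d ∈ range c.B2,
      if ![a, b, d] i = p then g (a * c.S + b * c.B2 + d) else 0 : ℕ) := by
  rw [nm, sum_filter, sum3]
  push_cast
  refine sum_le_sum fun a ha => sum_le_sum fun b hb => sum_le_sum fun d hd => ?_
  obtain ⟨e0, e1, e2, -⟩ := comp (mem_range.1 ha) (mem_range.1 hb) (mem_range.1 hd)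
  rw [show c.ex i (a * c.S + b * c.B2 + d) = ![a, b, d] i by
    fin_cases i; exacts [e0, e1, e2]]
  split_ifs
  exacts [h _, le_rfl]

theorem mkT_nb (hc : c.Ok) (D r : ℕ) : c.Nb 0 (c.mkT D r).n0 (c.mkT D r).n (c.ldc D) ∧
    c.Nb 1 (c.mkT D r).n1 (c.mkT D r).n (c.ldc D) ∧
    c.Nb 2 (c.mkT D r).n2 (c.mkT D r).n (c.ldc D) ∧ (c.mkT D r).n < 2 ^ c.w - 1 := by
  have hu := hc.pow_u
  have hw := hc.ult
  have h0 : 0 < 2 ^ (c.u - 1) := by positivity
  set g : ℕ → ℕ := fun t => (c.de D t ^^^ (2 ^ (c.u - 1) - 1 + c.de D t / 2 ^ (c.u - 1) % 2)) + 1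
    with hg
  have g1 : ∀ t, |c.ldc D t| ≤ g t ∧ g t ≤ 2 ^ (c.u - 1) := fun t =>
    abs_digit (by rw [Nat.sub_add_cancel hc.1]; exact de_lt D t)
  have e1 : pk c.w c.N (c.de D) >>> (c.u - 1) &&& c.VO =
      pk c.w c.N fun t => c.de D t / 2 ^ (c.u - 1) % 2 := by
    rw [VO_eq hc, land_pk fun t _ => by omega, Nat.shiftRight_eq_div_pow]
    refine pk_congr fun t ht => ?_
    have h1 := dig_shr (k := c.u - 1) (u := 1) (w := c.w) (by have := hc.u_lt; omega)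
      (pk c.w c.N (c.de D)) t
    rw [pow_one, dig_pk (fun s _ => (de_lt D s).trans hw) ht] at h1
    rw [Nat.and_one_is_mod, h1]
  have e2 : c.mkT D r = c.mk2 (pk c.w c.N (c.de D)) (pk c.w c.N g) r := by
    rw [hg, ← pk_add, ← xor_pk (fun s _ => (de_lt D s).trans hw) fun t _ => by omega, ← pk_add,
      ← e1, ← VO_sub hc, ← VO_eq hc, ← land_VM hc]
    rfl
  have hs : ∑ t ∈ range (c.B0 * c.S), g t < 2 ^ c.w - 1 := by
    refine lt_of_le_of_lt ?_ hc.2.2.2.1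
    calc _ ≤ ∑ _t ∈ range (c.B0 * c.S), 2 ^ (c.u - 1) := sum_le_sum fun t _ => (g1 t).2
      _ = _ := by simp [N_eq]
  obtain ⟨b0, b1, b2⟩ := hc.2.1
  have hS : 0 < c.S := Nat.mul_pos (by omega) (by omega)
  have s0 := sum_range_mul' c.B0 c.S g
  have f0 : (c.mkT D r).n0 = pk c.w c.B0 fun m => ∑ s ∈ range c.S, g (m * c.S + s) := by
    rw [e2, show (c.mk2 (pk c.w c.N (c.de D)) (pk c.w c.N g) r).n0 = cond c.wid (c.fd c.wC
      (m2 c.wC) (c.sg (c.w * c.S) (hor (c.w * c.S) c.B0 fun _ => c.mw) (pk c.w (c.B0 * c.S) g)))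
      (bs (c.w * c.S) c.w (2 ^ c.w - 1) c.l (pk c.w (c.B0 * c.S) g)) from rfl]
    cases hd : c.wid
    · exact bs_pk hc.2.2.1.1 hs
    · have h1 : c.B0 + 1 < c.S := Nat.blt_eq ▸ hd
      have h2 : ∀ p : ℕ → ℕ, pk (c.w * c.S) c.B0 p = pk c.wC c.B0 fun m => p m * 2 ^ (c.w * m) :=
        fun p => sum_congr rfl fun m _ => by
          obtain ⟨k, hk⟩ := Nat.exists_eq_add_of_le hS
          rw [show c.wC = c.w * (c.S - 1) from rfl, hk, Nat.add_sub_cancel_left]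
          ring
      have h3 : 2 ^ (c.w * c.B0) ≤ 2 ^ c.wC := Nat.pow_le_pow_right two_pos
        (Nat.mul_le_mul_left _ (show c.B0 ≤ c.S - 1 by omega))
      rw [cond_true, sg_pk hS hs, h2, fd_pk hc.2.2.1.1 (lt_of_lt_of_le (pk_lt' (by omega)
        fun m hm => (single_le_sum (f := fun m => ∑ s ∈ range c.S, g (m * c.S + s))
          (fun _ _ => Nat.zero_le _) (mem_range.2 hm)).trans_lt (s0 ▸ hs)) (by omega))]
      rfl
  have fz : c.fd c.wS c.mS (pk c.w c.N g) =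
      pk c.w (c.B1 * c.B2) fun s => ∑ m ∈ range c.B0, g (m * c.S + s) := by
    rw [N_eq, pk_pk, ← pk_sum_comm]
    exact fd_pk hc.2.2.1.1 (blk_lt hS hs)
  have s1 : ∑ s ∈ range (c.B1 * c.B2), ∑ m ∈ range c.B0, g (m * c.S + s) =
      ∑ t ∈ range (c.B0 * c.S), g t := by rw [s0, sum_comm]; rfl
  have f1 : (c.mkT D r).n1 = pk c.wB c.B1 fun j => ∑ k ∈ range c.B2,
      ∑ m ∈ range c.B0, g (m * c.S + (j * c.B2 + k)) := by
    rw [e2, show (c.mk2 (pk c.w c.N (c.de D)) (pk c.w c.N g) r).n1 = c.sg (c.w * c.B2)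
      (hor (c.w * c.B2) c.B1 fun _ => c.mw) (c.fd c.wS c.mS (pk c.w c.N g)) from rfl, fz,
      sg_pk (by omega) (s1 ▸ hs)]
    rfl
  have s2 : ∑ k ∈ range c.B2, ∑ j ∈ range c.B1, ∑ m ∈ range c.B0, g (m * c.S + (j * c.B2 + k)) =
      ∑ t ∈ range (c.B0 * c.S), g t := by rw [← s1, sum_range_mul', sum_comm]
  have f2 : (c.mkT D r).n2 = pk c.w c.B2 fun k => ∑ j ∈ range c.B1,
      ∑ m ∈ range c.B0, g (m * c.S + (j * c.B2 + k)) := by
    rw [e2, show (c.mk2 (pk c.w c.N (c.de D)) (pk c.w c.N g) r).n2 =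
      c.fd c.wS c.mS (pk c.w c.N g) % (2 ^ (c.w * c.B2) - 1) from rfl, fz, pk_pk,
      pk_sum (blk_lt (g := fun s => ∑ m ∈ range c.B0, g (m * c.S + s)) (by omega) (s1 ▸ hs)),
      pk_sum_comm]
  have fn : (c.mkT D r).n = ∑ t ∈ range (c.B0 * c.S), g t := by
    rw [show (c.mkT D r).n = (c.mkT D r).n0 % (2 ^ c.w - 1) from rfl, f0, pk_sum (s0 ▸ hs), s0]
  refine ⟨⟨_, f0, fun p hp => ?_, fn ▸ s0.symm⟩, ⟨_, f1, fun p hp => ?_, ?_⟩,
    ⟨_, f2, fun p hp => ?_, fn ▸ s2⟩, fn ▸ hs⟩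
  · refine (nm_le (fun t => (g1 t).1) 0 p).trans (le_of_eq (congrArg _ ?_))
    rw [S_eq, sum_range_mul']
    simp [show p < c.B0 from hp, add_assoc]
  · refine (nm_le (fun t => (g1 t).1) 1 p).trans (le_of_eq (congrArg _ ?_))
    rw [sum_comm (s := range c.B2)]
    simp [show p < c.B1 from hp, add_assoc]
  · rw [fn, ← s2]
    exact sum_comm
  · refine (nm_le (fun t => (g1 t).1) 2 p).trans (le_of_eq (congrArg _ ?_))
    rw [sum_comm (s := range c.B1)]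
    simp [show p < c.B2 from hp, add_assoc]

theorem mkT_rep (hc : c.Ok) (D r : ℕ) : c.Rep (c.mkT D r).U (c.mkT D r).n (c.ldc D) := by
  refine ⟨?_, (mkT_nb hc D r).1.l1_le hc⟩
  rw [mkT_enc hc]
  exact Int.modEq_iff_dvd.2 ⟨-1, by ring⟩

variable {A : Type*} [CommRing A] [Algebra ℝ A] {X : Fin 3 → A}

theorem pol_mkT (hc : c.Ok) (D r : ℕ) : c.pol X (c.mkT D r) = c.ev X (c.ldc D) :=
  ev_congr fun _ ht => ldc_mkT hc D r ht

end Cfg

end Pool.Agent.MP_48470b_gt.TT
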