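import Pool.Agent.MP_48470b_gt.TT.X

/-! Bounds for the dropped part of a packed polynomial: executable definitions. -/

namespace Pool.Agent.MP_48470b_gt.TT

/-- weighted sum of the first `n` blocks of width `W` -/
def ct (W n : Nat) (φ : Nat → Nat) (x : Nat) : Nat :=
  sm n fun p => Nat.mul (Nat.land (m2 W) (Nat.shiftRight x (Nat.mul W p))) (φ p)

def rv (W n : Nat) (φ : Nat → Nat) : Nat := hor W n fun q => φ (Nat.sub (Nat.sub n 1) q)
/-- the same sum through one product -/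
def cm (W n : Nat) (φ : Nat → Nat) (x : Nat) : Nat :=
  Nat.land (m2 W) (Nat.shiftRight (Nat.mul x (rv W n φ)) (Nat.mul W (Nat.sub n 1)))

/-- falling factorial -/
def fal (p m : Nat) : Nat := Nat.rec 1 (fun k a => Nat.mul (Nat.sub p k) a) m

namespace Cfg

variable (c : Cfg)

def sgn (D : Nat) : Nat := Nat.land (Nat.shiftRight D c.u1) c.VO
def ab1 (D : Nat) : Nat :=
  Nat.add (Nat.xor D (Nat.add c.C1 (c.sgn D))) (Nat.sub c.VO (c.sgn D))
/-- absolute values of the coefficients -/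
def ab (D : Nat) : Nat := c.ab1 (Nat.land c.VM D)

def dm2 (B2 : Nat) (b : Bool) : Nat :=
  hor c.w c.B2 fun k => cond (b && Nat.blt k B2) 0 c.mw
def dm1 (B1 B2 : Nat) (b : Bool) : Nat :=
  hor c.wB c.B1 fun j => cond (b && Nat.blt j B1) (c.dm2 B2 true) (c.dm2 B2 false)
/-- mask of the dropped slots -/
def dm (B0 B1 B2 : Nat) : Nat :=
  hor c.wS c.B0 fun i => cond (Nat.blt i B0) (c.dm1 B1 B2 true) (c.dm1 B1 B2 false)
/-- absolute values of the dropped coefficients -/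
def dr (B0 B1 B2 D : Nat) : Nat := Nat.land (c.ab D) (c.dm B0 B1 B2)

/-- bound for `2 ^ 16` times the derivative of order `m` of the power `p` -/
def wt (m p : Nat) : Nat := Nat.mul (fal p m) (c.gw (Nat.sub p m))
/-- the same with `2 ^ 10` -/
def wu1 (m p : Nat) : Nat :=
  Nat.mul (fal p m) (Nat.add (Nat.shiftRight (c.gw (Nat.sub p m)) 6) 1)
def ct0 (m0 x : Nat) : Nat := ct c.wS c.B0 (c.wt m0) x
def ct1 (m0 m1 x : Nat) : Nat := cm c.wB c.B1 (c.wu1 m1) (c.ct0 m0 x)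
def ct2 (m0 m1 m2 x : Nat) : Nat := cm c.w c.B2 (c.wu1 m2) (c.ct1 m0 m1 x)
def su0 (m : Nat) : Nat := sm c.B0 (c.wt m)
def su1 (m : Nat) : Nat := Nat.add (sm c.B1 (c.wu1 m)) 1
def su2 (m : Nat) : Nat := Nat.add (sm c.B2 (c.wu1 m)) 1
def cb (m0 m1 m2 x : Nat) : Nat :=
  Nat.mul (Nat.mul (Nat.mul (Nat.mod x c.mw) (c.su0 m0)) (c.su1 m1)) (c.su2 m2)
/-- weighted sum of all digits -/
def ws3 (m0 m1 m2 x : Nat) : Nat :=
  Nat.add (Nat.shiftRight (cond (Nat.blt (c.cb m0 m1 m2 x) c.mw) (c.ct2 m0 m1 m2 x)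
    (c.cb m0 m1 m2 x)) 36) 1

def ind (i : Fin 3) (a : Nat) : Nat := cond (Nat.beq i.1 a) 1 0
/-- `f n`, with small arguments written as numerals -/
def fz (n : Nat) (f : Nat → Nat) : Nat :=
  cond (Nat.beq n 0) (f 0) (cond (Nat.beq n 1) (f 1) (cond (Nat.beq n 2) (f 2) (f n)))
def ws4 (m0 m1 m2 x : Nat) : Nat := fz m0 fun a => fz m1 fun b => fz m2 fun d => c.ws3 a b d x

/-- bound for the part outside of the sizes `B0 B1 B2` of the polynomial read from `D` -/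
def rs0 (B0 B1 B2 D : Nat) : Nat := c.ws3 0 0 0 (c.dr B0 B1 B2 D)
/-- bound for its first derivatives -/
def rs1 (B0 B1 B2 D : Nat) (i : Fin 3) : Nat :=
  c.ws4 (ind i 0) (ind i 1) (ind i 2) (c.dr B0 B1 B2 D)
/-- bound for its second derivatives -/
def rs2 (B0 B1 B2 D : Nat) (i j : Fin 3) : Nat :=
  c.ws4 (Nat.add (ind i 0) (ind j 0)) (Nat.add (ind i 1) (ind j 1)) (Nat.add (ind i 2) (ind j 2))
    (c.dr B0 B1 B2 D)

end Cfg

end Pool.Agent.MP_48470b_gt.TT
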