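import Pool.Agent.MP_48470b_gt.TT.Out
import Pool.Agent.MP_48470b_gt.TT.RsX

/-! Bounds for the dropped part of a packed polynomial. -/

open Finset

namespace Pool.Agent.MP_48470b_gt.TT

open TM hiding T W Cfg hor ones bs hor_eq ones_eq bs_eq

theorem ct_eq (W n : ℕ) (φ : ℕ → ℕ) (x : ℕ) :
    ct W n φ x = ∑ p ∈ range n, dig W x p * φ p := by
  rw [ct, sm_eq]
  refine sum_congr rfl fun p _ => ?_
  rw [land_m2, Nat.mul_eq, Nat.mul_eq, show Nat.shiftRight x (W * p) = x >>> (W * p) from rfl,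
    Nat.shiftRight_eq_div_pow, dig]

theorem ct_pk {w a b : ℕ} {g : ℕ → ℕ} (h : ∀ t < a * b, g t < 2 ^ w) (φ : ℕ → ℕ) :
    ct (w * b) a φ (pk w (a * b) g) = pk w b fun s => ∑ m ∈ range a, g (m * b + s) * φ m := by
  have h2 : ∀ m < a, pk w b (fun s => g (m * b + s)) < 2 ^ (w * b) := fun m hm =>
    pk_lt fun s hs => h _ (by have := Nat.mul_le_mul_right b (show m + 1 ≤ a from hm); linarith)
  rw [ct_eq, pk_pk, sum_congr rfl fun m hm => by rw [dig_pk h2 (mem_range.1 hm), pk_mul],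
    pk_sum_comm]

theorem cm_pk {W n : ℕ} {x φ : ℕ → ℕ}
    (h : (∑ p ∈ range n, x p) * ∑ p ∈ range n, φ p < 2 ^ W) :
    cm W n φ (pk W n x) = ∑ p ∈ range n, x p * φ p := by
  rcases n with _ | n
  · simp [cm, pk]
  have e : pk W (n + 1) x * rv W (n + 1) φ = pk W (2 * n + 1) fun t =>
      ∑ p ∈ range (n + 1) ×ˢ range (n + 1) with p.1 + p.2 = t, x p.1 * φ (n - p.2) := by
    rw [rv, hor_eq, pk, pk, pk, sum_mul_sum, ← sum_product', ← sum_fiberwise_of_maps_to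
      (t := range (2 * n + 1)) (g := fun p : ℕ × ℕ => p.1 + p.2) fun p hp => by
        simp only [mem_product, mem_range] at hp ⊢; omega]
    refine sum_congr rfl fun t _ => ?_
    rw [sum_mul]
    refine sum_congr rfl fun p hp => ?_
    rw [← (mem_filter.1 hp).2, mul_add, pow_add]
    simp only [Nat.sub_eq, Nat.add_sub_cancel]
    ring
  rw [← sum_range_reflect φ, sum_mul_sum, ← sum_product', Nat.add_sub_cancel] at h
  rw [cm, land_m2, Nat.mul_eq, Nat.mul_eq, e, show ∀ a b, Nat.shiftRight a b = a >>> b from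
    fun _ _ => rfl, Nat.shiftRight_eq_div_pow, ← dig, Nat.sub_eq, Nat.add_sub_cancel,
    dig_pk (fun t _ => (sum_le_sum_of_subset (filter_subset _ _)).trans_lt h) (by omega),
    sum_filter, sum_product]
  refine sum_congr rfl fun p hp => ?_
  have := mem_range.1 hp
  rw [sum_eq_single (n - p) (fun q _ hq => if_neg (by omega))
    (fun h => absurd (mem_range.2 (by omega)) h), if_pos (by omega), Nat.sub_sub_self (by omega)]

theorem fal_eq (p m : ℕ) : fal p m = p.descFactorial m := by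
  induction m with
  | zero => rfl
  | succ m ih => rw [Nat.descFactorial_succ, ← ih]; rfl

theorem abs_digit' {k x : ℕ} (hx : x < 2 ^ (k + 1)) :
    |(x : ℤ) - 2 ^ k| ≤ ((x ^^^ (2 ^ k - 1 + x / 2 ^ k % 2)) + (1 - x / 2 ^ k % 2) : ℕ) := by
  have h0 : 0 < 2 ^ k := by positivity
  rcases lt_or_ge x (2 ^ k) with h | h
  · have := (abs_digit hx).1
    rwa [Nat.div_eq_of_lt h] at this ⊢
  · obtain ⟨z, rfl⟩ := Nat.exists_eq_add_of_le h
    have hz : z < 2 ^ k := by rw [pow_succ] at hx; omega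
    have e : (2 ^ k + z) ^^^ 2 ^ k = z := by
      have h1 : 2 ^ k + z = 2 ^ k ^^^ z := Nat.eq_of_testBit_eq fun i => by
        have h2 := Nat.two_pow_add_eq_or_of_lt hz 1
        rw [mul_one] at h2
        rw [h2, Nat.testBit_or, Nat.testBit_xor, Nat.testBit_two_pow]
        by_cases hi : k = i
        · simp [← hi, Nat.testBit_lt_two_pow hz]
        · simp [hi]
      rw [h1, Nat.xor_comm (2 ^ k), Nat.xor_xor_cancel_right]
    rw [Nat.add_div_left _ h0, Nat.div_eq_of_lt hz, show 2 ^ k - 1 + (0 + 1) % 2 = 2 ^ k by omega,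
      e]
    simp

variable {A : Type*} [CommRing A] [Algebra ℝ A]

/-- polynomial with exponents below `n0 n1 n2` -/
noncomputable def tp (a : ℕ → ℕ → ℕ → ℤ) (n0 n1 n2 : ℕ) (X : Fin 3 → A) : A :=
  ∑ i ∈ range n0, ∑ j ∈ range n1, ∑ k ∈ range n2, (a i j k : ℝ) • (X 0 ^ i * X 1 ^ j * X 2 ^ k)

theorem sum_cut {M : Type*} [AddCommMonoid M] (n m : ℕ) (f : ℕ → M) :
    ∑ i ∈ range (min n m), f i = ∑ i ∈ range n, if i < m then f i else 0 := by
  rw [← sum_filter]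
  exact sum_congr (by ext i; simp) fun _ _ => rfl

theorem tp_min (a : ℕ → ℕ → ℕ → ℤ) (n0 n1 n2 m0 m1 m2 : ℕ) (X : Fin 3 → A) :
    tp a (min n0 m0) (min n1 m1) (min n2 m2) X = tp (fun i j k =>
      if i < m0 ∧ j < m1 ∧ k < m2 then a i j k else 0) n0 n1 n2 X := by
  simp only [tp, sum_cut]
  refine sum_congr rfl fun i _ => ?_
  by_cases hi : i < m0
  · refine (if_pos hi).trans (sum_congr rfl fun j _ => ?_)
    by_cases hj : j < m1
    · refine (if_pos hj).trans (sum_congr rfl fun k _ => ?_)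
      by_cases hk : k < m2 <;> simp [hi, hj, hk]
    · simp [hj]
  · simp [hi]

theorem tp_congr {a b : ℕ → ℕ → ℕ → ℤ} {n0 n1 n2 : ℕ}
    (h : ∀ i < n0, ∀ j < n1, ∀ k < n2, a i j k = b i j k) (X : Fin 3 → A) :
    tp a n0 n1 n2 X = tp b n0 n1 n2 X :=
  sum_congr rfl fun i hi => sum_congr rfl fun j hj => sum_congr rfl fun k hk => by
    rw [h i (mem_range.1 hi) j (mem_range.1 hj) k (mem_range.1 hk)]

/-- the dropped part -/
theorem tp_sub {a : ℕ → ℕ → ℕ → ℤ} {n0 n1 n2 m0 m1 m2 : ℕ}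
    (h : ∀ i < m0, ∀ j < m1, ∀ k < m2, ¬ (i < n0 ∧ j < n1 ∧ k < n2) → a i j k = 0)
    (X : Fin 3 → A) : tp a n0 n1 n2 X - tp a m0 m1 m2 X = tp (fun i j k =>
      if i < m0 ∧ j < m1 ∧ k < m2 then 0 else a i j k) n0 n1 n2 X := by
  rw [tp_congr (a := a) (n0 := m0) (b := fun i j k => if i < n0 ∧ j < n1 ∧ k < n2 then a i j k
    else 0) (fun i hi j hj k hk => by split_ifs with h1; exacts [rfl, h i hi j hj k hk h1]),
    ← tp_min, min_comm m0, min_comm m1, min_comm m2, tp_min]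
  simp only [tp, ← sum_sub_distrib, ← sub_smul]
  refine sum_congr rfl fun i _ => sum_congr rfl fun j _ => sum_congr rfl fun k _ => ?_
  split_ifs <;> simp

namespace Cfg

variable {c : Cfg} {X : Fin 3 → A} {ν : Seminorm ℝ A}

theorem ev_tp (f : ℕ → ℤ) :
    c.ev X f = tp (fun i j k => f (i * c.S + j * c.B2 + k)) c.B0 c.B1 c.B2 X := by
  rw [ev, sum3]
  refine sum_congr rfl fun i hi => sum_congr rfl fun j hj => sum_congr rfl fun k hk => ?_
  obtain ⟨e0, e1, e2, -⟩ := comp (mem_range.1 hi) (mem_range.1 hj) (mem_range.1 hk)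
  rw [mono, e0, e1, e2]

theorem ab_eq (hc : c.Ok) (D : ℕ) : ∃ g : ℕ → ℕ, c.ab D = pk c.w c.N g ∧
    ∀ t, |c.ldc D t| ≤ g t ∧ g t ≤ 2 ^ (c.u - 1) := by
  have hu := hc.pow_u
  have hw := hc.ult
  have h0 : 0 < 2 ^ (c.u - 1) := by positivity
  have e1 : c.sgn (pk c.w c.N (c.de D)) = pk c.w c.N fun t => c.de D t / 2 ^ (c.u - 1) % 2 := by
    rw [show c.sgn (pk c.w c.N (c.de D)) = pk c.w c.N (c.de D) >>> (c.u - 1) &&& c.VO from rfl,
      VO_eq hc, land_pk fun t _ => by omega, Nat.shiftRight_eq_div_pow]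
    refine pk_congr fun t ht => ?_
    have h1 := dig_shr (k := c.u - 1) (u := 1) (w := c.w) (by have := hc.u_lt; omega)
      (pk c.w c.N (c.de D)) t
    rw [pow_one, dig_pk (fun s _ => (de_lt D s).trans hw) ht] at h1
    rw [Nat.and_one_is_mod, h1]
  refine ⟨fun t => (c.de D t ^^^ (2 ^ (c.u - 1) - 1 + c.de D t / 2 ^ (c.u - 1) % 2)) +
    (1 - c.de D t / 2 ^ (c.u - 1) % 2), ?_, fun t => ?_⟩
  · rw [← pk_add, ← xor_pk (fun s _ => (de_lt D s).trans hw) fun t _ => by omega, ← pk_add,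
      ← VO_sub hc, ← pk_sub fun t _ => by omega, ← e1, ← VO_eq hc, ← land_VM hc]
    rfl
  · have h1 : c.de D t < 2 ^ (c.u - 1 + 1) := by
      rw [Nat.sub_add_cancel hc.1]; exact de_lt D t
    have h2 := (abs_digit h1).2
    exact ⟨abs_digit' h1, by beta_reduce; omega⟩

theorem dm_eq (B0 B1 B2 : ℕ) : c.dm B0 B1 B2 = pk c.w c.N fun t =>
    if t / c.S < B0 ∧ t % c.S / c.B2 < B1 ∧ t % c.B2 < B2 then 0 else 2 ^ c.w - 1 := by
  have h1 : ∀ (b : Bool) (f : Bool → ℕ), cond b (f true) (f false) = f b := fun b f => by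
    cases b <;> rfl
  simp only [dm, h1]
  simp only [dm1, h1]
  simp only [dm2, hor_eq]
  rw [N_eq, pk_pk]
  refine pk_congr fun i _ => ?_
  rw [S_eq, pk_pk]
  refine pk_congr fun j hj => pk_congr fun k hk => ?_
  have h2 : j * c.B2 + k < c.B1 * c.B2 := by
    have := Nat.mul_le_mul_right c.B2 (show j + 1 ≤ c.B1 from hj); linarith
  have h3 : 0 < c.B1 * c.B2 := by omega
  rw [add_comm (i * _), Nat.add_mul_div_right _ _ h3, Nat.add_mul_mod_self_right,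
    Nat.div_eq_of_lt h2, Nat.mod_eq_of_lt h2, ← mul_assoc, Nat.add_mul_mod_self_right,
    add_comm (j * _), Nat.add_mul_div_right _ _ (by omega), Nat.add_mul_mod_self_right,
    Nat.div_eq_of_lt hk, Nat.mod_eq_of_lt hk, zero_add, zero_add]
  by_cases k0 : i < B0 <;> by_cases k1 : j < B1 <;> by_cases k2 : k < B2 <;>
    simp [k0, k1, k2, Bool.cond_eq_ite, mw, m2_eq]

theorem ws3_ge (hc : c.Ok) {g : ℕ → ℕ} (hg : ∀ t < c.N, g t ≤ 2 ^ (c.u - 1)) (m0 m1 m2 : ℕ)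
    {x : ℝ} (hx : x * 2 ^ 36 ≤ (∑ i ∈ range c.B0, ∑ j ∈ range c.B1, ∑ k ∈ range c.B2,
      g (i * c.S + j * c.B2 + k) * c.wt m0 i * c.wu1 m1 j * c.wu1 m2 k : ℕ)) :
    x ≤ c.ws3 m0 m1 m2 (pk c.w c.N g) := by
  refine le_shr _ 36 (hx.trans (Nat.cast_le.2 ?_))
  have hs : ∑ t ∈ range c.N, g t < 2 ^ c.w - 1 := by
    refine lt_of_le_of_lt ?_ hc.2.2.2.1
    calc _ ≤ ∑ _t ∈ range c.N, 2 ^ (c.u - 1) := sum_le_sum fun t ht => hg t (mem_range.1 ht)
      _ = _ := by simp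
  have w0 : ∀ (φ : ℕ → ℕ) {n p : ℕ}, p ∈ range n → φ p ≤ ∑ p ∈ range n, φ p := fun φ n p hp =>
    single_le_sum (fun _ _ => Nat.zero_le _) hp
  set P : ℕ → ℕ → ℕ := fun j k => ∑ i ∈ range c.B0, g (i * c.S + (j * c.B2 + k)) * c.wt m0 i
    with hP
  set a1 := ∑ p ∈ range c.B1, c.wu1 m1 p
  set a2 := ∑ p ∈ range c.B2, c.wu1 m2 p
  have e : (∑ k ∈ range c.B2, ∑ j ∈ range c.B1, P j k) * (a1 + 1) * (a2 + 1) ≤
      c.cb m0 m1 m2 (pk c.w c.N g) := by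
    rw [cb, su0, su1, su2, sm_eq, sm_eq, sm_eq, show Nat.mod (pk c.w c.N g) c.mw = _ from pk_sum hs,
      sum3, sum_comm, sum_comm (s := range c.B0)]
    refine Nat.mul_le_mul_right _ (Nat.mul_le_mul_right _ ?_)
    rw [Nat.mul_eq, sum_mul]
    refine sum_le_sum fun j _ => ?_
    rw [sum_comm (s := range c.B0), sum_mul]
    refine sum_le_sum fun k _ => ?_
    rw [sum_mul]
    exact sum_le_sum fun i hi => by
      rw [add_assoc]; exact Nat.mul_le_mul_left _ (w0 _ hi)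
  have b1 : ∀ k, ∑ j ∈ range c.B1, P j k * c.wu1 m1 j ≤ (∑ j ∈ range c.B1, P j k) * (a1 + 1) :=
    fun k => by
      rw [sum_mul]
      exact sum_le_sum fun j hj => Nat.mul_le_mul_left _ ((w0 _ hj).trans (Nat.le_succ _))
  have b2 : (∑ k ∈ range c.B2, ∑ j ∈ range c.B1, P j k * c.wu1 m1 j) * a2 ≤
      c.cb m0 m1 m2 (pk c.w c.N g) := by
    refine le_trans (Nat.mul_le_mul ?_ (Nat.le_succ _)) e
    rw [sum_mul]
    exact sum_le_sum fun k _ => b1 k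
  have e3 : ∑ i ∈ range c.B0, ∑ j ∈ range c.B1, ∑ k ∈ range c.B2,
      g (i * c.S + j * c.B2 + k) * c.wt m0 i * c.wu1 m1 j * c.wu1 m2 k = ∑ k ∈ range c.B2,
      (∑ j ∈ range c.B1, P j k * c.wu1 m1 j) * c.wu1 m2 k := by
    simp only [hP, sum_mul, add_assoc]
    rw [sum_comm, sum_congr rfl fun j _ => sum_comm, sum_comm]
  rw [e3]
  cases h : Nat.blt (c.cb m0 m1 m2 (pk c.w c.N g)) c.mw
  · rw [cond_false]
    refine le_trans ?_ b2
    rw [sum_mul]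
    exact sum_le_sum fun k hk => Nat.mul_le_mul_left _ (w0 _ hk)
  · have h1 : c.cb m0 m1 m2 (pk c.w c.N g) < 2 ^ c.w :=
      lt_of_lt_of_le (Nat.blt_eq ▸ h) (Nat.sub_le _ _)
    have b3 : ∀ k < c.B2, (∑ j ∈ range c.B1, P j k) * (a1 + 1) < 2 ^ c.w := fun k hk =>
      lt_of_le_of_lt ((Nat.mul_le_mul_right _ (w0 (fun k => ∑ j ∈ range c.B1, P j k)
        (mem_range.2 hk))).trans ((Nat.le_mul_of_pos_right _ (Nat.succ_pos _)).trans e)) h1
    have f0 : c.ct0 m0 (pk c.w c.N g) =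
        pk c.w (c.B1 * c.B2) fun s => ∑ i ∈ range c.B0, g (i * c.S + s) * c.wt m0 i :=
      ct_pk (fun t ht => ((single_le_sum (fun _ _ => Nat.zero_le _) (mem_range.2 ht)).trans_lt
        hs).trans_le (Nat.sub_le _ _)) _
    have f1 : c.ct1 m0 m1 (pk c.w c.N g) =
        pk c.w c.B2 fun k => ∑ j ∈ range c.B1, P j k * c.wu1 m1 j := by
      rw [ct1, f0, pk_pk, ← pk_sum_comm]
      simp only [← pk_mul]
      refine cm_pk ?_
      rw [pk_sum_comm, pk_mul]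
      exact pk_lt fun k hk => (Nat.mul_le_mul_left _ (Nat.le_succ _)).trans_lt (b3 k hk)
    rw [cond_true, ct2, f1, cm_pk (b2.trans_lt h1)]

theorem fz_eq (n : ℕ) (f : ℕ → ℕ) : fz n f = f n := by
  rcases n with _ | _ | _ | n <;> rfl

theorem ws4_eq (m0 m1 m2 x : ℕ) : c.ws4 m0 m1 m2 x = c.ws3 m0 m1 m2 x := by
  simp only [ws4, fz_eq]

theorem wt_ge (hc : c.Ok) (m p : ℕ) :
    (p.descFactorial m * c.γ ^ (p - m)) * 65536 ≤ c.wt m p := by
  rw [wt, fal_eq, Nat.mul_eq, Nat.cast_mul, mul_assoc]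
  exact mul_le_mul_of_nonneg_left (gw_ge hc _) (Nat.cast_nonneg _)

theorem wu1_ge (hc : c.Ok) (m p : ℕ) :
    (p.descFactorial m * c.γ ^ (p - m)) * 1024 ≤ c.wu1 m p := by
  rw [wu1, fal_eq, Nat.mul_eq, Nat.cast_mul, mul_assoc]
  exact mul_le_mul_of_nonneg_left (le_shr _ 6 (le_trans (le_of_eq (by ring)) (gw_ge hc (p - m))))
    (Nat.cast_nonneg _)

theorem rs_ge (hc : c.Ok) {D : ℕ} {a : ℕ → ℕ → ℕ → ℤ}
    (hD : ∀ i < c.B0, ∀ j < c.B1, ∀ k < c.B2, c.ldc D (i * c.S + j * c.B2 + k) = a i j k)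
    {B0 B1 B2 : ℕ}
    (hz : ∀ i < B0, ∀ j < B1, ∀ k < B2, ¬ (i < c.B0 ∧ j < c.B1 ∧ k < c.B2) → a i j k = 0)
    (Λ : A →ₗ[ℝ] A) (m0 m1 m2 : ℕ) (hΛ : ∀ i j k, ν (Λ (X 0 ^ i * X 1 ^ j * X 2 ^ k)) ≤
      i.descFactorial m0 * c.γ ^ (i - m0) * (j.descFactorial m1 * c.γ ^ (j - m1)) *
        (k.descFactorial m2 * c.γ ^ (k - m2))) :
    ν (Λ (tp a c.B0 c.B1 c.B2 X - tp a B0 B1 B2 X)) ≤ c.ws3 m0 m1 m2 (c.dr B0 B1 B2 D) := by
  obtain ⟨g, h1, h2⟩ := ab_eq hc D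
  have hw : 2 ^ (c.u - 1) < 2 ^ c.w :=
    Nat.pow_lt_pow_right one_lt_two (by have := hc.u_lt; omega)
  have e : c.dr B0 B1 B2 D = pk c.w c.N fun t =>
      if t / c.S < B0 ∧ t % c.S / c.B2 < B1 ∧ t % c.B2 < B2 then 0 else g t := by
    rw [show c.dr B0 B1 B2 D = c.ab D &&& c.dm B0 B1 B2 from rfl, dm_eq,
      land_pk fun t _ => by split_ifs; exacts [by positivity, Nat.sub_lt (by positivity) one_pos],
      h1]
    refine pk_congr fun t ht => ?_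
    rw [dig_pk (fun s _ => (h2 s).2.trans_lt hw) ht]
    split_ifs
    · simp
    · rw [Nat.and_two_pow_sub_one_eq_mod, Nat.mod_eq_of_lt ((h2 t).2.trans_lt hw)]
  rw [e, tp_sub hz]
  refine ws3_ge hc (fun t _ => by split_ifs; exacts [Nat.zero_le _, (h2 t).2]) m0 m1 m2 ?_
  have sub : ∀ (n : ℕ) (y : ℕ → A) (z : ℕ → ℕ), (∀ i < n, ν (y i) * 2 ^ 36 ≤ z i) →
      ν (∑ i ∈ range n, y i) * 2 ^ 36 ≤ (∑ i ∈ range n, z i : ℕ) := fun n y z h => by
    refine (mul_le_mul_of_nonneg_right (le_sum_of_subadditive ν (map_zero ν).le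
      (map_add_le_add ν) _ _) (by positivity)).trans ?_
    rw [sum_mul, Nat.cast_sum]
    exact sum_le_sum fun i hi => h i (mem_range.1 hi)
  simp only [tp, map_sum]
  refine sub _ _ _ fun i hi => sub _ _ _ fun j hj => sub _ _ _ fun k hk => ?_
  obtain ⟨e0, e1, e2, e3⟩ := comp hi hj hk
  have h3 : j * c.B2 + k < c.S := by
    have := Nat.mul_le_mul_right c.B2 (show j + 1 ≤ c.B1 from hj)
    rw [S_eq]; linarith
  have f0 : (i * c.S + j * c.B2 + k) / c.S = i := by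
    rw [add_assoc, add_comm, Nat.add_mul_div_right _ _ (by omega), Nat.div_eq_of_lt h3, zero_add]
  have f1 : (i * c.S + j * c.B2 + k) % c.S / c.B2 = j := by
    rw [add_assoc, add_comm, Nat.add_mul_mod_self_right, Nat.mod_eq_of_lt h3, add_comm,
      Nat.add_mul_div_right _ _ (by omega), Nat.div_eq_of_lt hk, zero_add]
  rw [f0, f1, ← ex2, e2, map_smul, map_smul_eq_mul, Real.norm_eq_abs]
  split_ifs
  · simp
  · have g0 := γ_nonneg (c := c)
    have k1 : |(a i j k : ℝ)| ≤ g (i * c.S + j * c.B2 + k) := by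
      rw [← hD i hi j hj k hk]
      exact_mod_cast (h2 _).1
    have k2 := mul_le_mul (mul_le_mul (mul_le_mul k1 (wt_ge hc m0 i) (by positivity)
      (by positivity)) (wu1_ge hc m1 j) (by positivity) (by positivity)) (wu1_ge hc m2 k)
      (by positivity) (by positivity)
    push_cast
    refine le_trans (mul_le_mul_of_nonneg_right (mul_le_mul_of_nonneg_left (hΛ i j k)
      (abs_nonneg _)) (by positivity)) (le_trans (le_of_eq ?_) k2)
    ring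

theorem Sg.mon (H : c.Sg X ν) (n i j k : ℕ) :
    ν (n • (X 0 ^ i * X 1 ^ j * X 2 ^ k)) ≤ n * (c.γ ^ i * c.γ ^ j * c.γ ^ k) := by
  have h1 : ∀ i k, ν (X i ^ k) ≤ c.γ ^ k := fun i k => by
    induction k with
    | zero => simpa using H.sem.one
    | succ k ih => simpa [pow_succ] using H.sem.mul_le ih (H.le_γ i)
  rw [← Nat.cast_smul_eq_nsmul ℝ, map_smul_eq_mul, Real.norm_natCast]
  exact mul_le_mul_of_nonneg_left (H.sem.mul_le (H.sem.mul_le (h1 0 _) (h1 1 _)) (h1 2 _))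
    (Nat.cast_nonneg _)

theorem der_mon {a : Fin 3} {δ : Derivation ℝ A A} (hδ : ∀ j, δ (X j) = if j = a then 1 else 0)
    (i j k : ℕ) : δ (X 0 ^ i * X 1 ^ j * X 2 ^ k) =
      sel a i j k • (X 0 ^ (i - ind a 0) * X 1 ^ (j - ind a 1) * X 2 ^ (k - ind a 2)) := by
  simp only [Derivation.leibniz, Derivation.leibniz_pow, hδ]
  fin_cases a <;> simp [sel, ind, Nat.beq] <;> ring

variable {D : ℕ} {a : ℕ → ℕ → ℕ → ℤ} {B0 B1 B2 : ℕ}

theorem Sg.rs0 (H : c.Sg X ν)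
    (hD : ∀ i < c.B0, ∀ j < c.B1, ∀ k < c.B2, c.ldc D (i * c.S + j * c.B2 + k) = a i j k)
    (hz : ∀ i < B0, ∀ j < B1, ∀ k < B2, ¬ (i < c.B0 ∧ j < c.B1 ∧ k < c.B2) → a i j k = 0) :
    ν (tp a c.B0 c.B1 c.B2 X - tp a B0 B1 B2 X) ≤ c.rs0 B0 B1 B2 D :=
  rs_ge H.ok hD hz LinearMap.id 0 0 0 fun i j k => by simpa using H.mon 1 i j k

theorem Sg.rs1 (H : c.Sg X ν)
    (hD : ∀ i < c.B0, ∀ j < c.B1, ∀ k < c.B2, c.ldc D (i * c.S + j * c.B2 + k) = a i j k)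
    (hz : ∀ i < B0, ∀ j < B1, ∀ k < B2, ¬ (i < c.B0 ∧ j < c.B1 ∧ k < c.B2) → a i j k = 0)
    {δ : Fin 3 → Derivation ℝ A A} (hδ : ∀ i j, δ i (X j) = if j = i then 1 else 0) (p : Fin 3) :
    ν (δ p (tp a c.B0 c.B1 c.B2 X - tp a B0 B1 B2 X)) ≤ c.rs1 B0 B1 B2 D p := by
  rw [Cfg.rs1, ws4_eq]
  refine rs_ge H.ok hD hz (δ p : A →ₗ[ℝ] A) _ _ _ fun i j k => ?_
  rw [Derivation.coeFn_coe, der_mon (hδ p)]
  refine (H.mon _ _ _ _).trans (le_of_eq ?_)
  fin_cases p <;> simp [sel, ind, Nat.beq]  <;> ring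

theorem Sg.rs2 (H : c.Sg X ν)
    (hD : ∀ i < c.B0, ∀ j < c.B1, ∀ k < c.B2, c.ldc D (i * c.S + j * c.B2 + k) = a i j k)
    (hz : ∀ i < B0, ∀ j < B1, ∀ k < B2, ¬ (i < c.B0 ∧ j < c.B1 ∧ k < c.B2) → a i j k = 0)
    {δ : Fin 3 → Derivation ℝ A A} (hδ : ∀ i j, δ i (X j) = if j = i then 1 else 0)
    (p q : Fin 3) :
    ν (δ q (δ p (tp a c.B0 c.B1 c.B2 X - tp a B0 B1 B2 X))) ≤ c.rs2 B0 B1 B2 D p q := by
  rw [Cfg.rs2, ws4_eq]
  refine rs_ge H.ok hD hz ((δ q : A →ₗ[ℝ] A) ∘ₗ (δ p : A →ₗ[ℝ] A)) _ _ _ fun i j k => ?_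
  rw [LinearMap.comp_apply, Derivation.coeFn_coe, Derivation.coeFn_coe, der_mon (hδ p), map_nsmul,
    der_mon (hδ q), smul_smul]
  refine (H.mon _ _ _ _).trans (le_of_eq ?_)
  fin_cases p <;> fin_cases q <;> simp [sel, ind, Nat.beq, Nat.sub_sub] <;> ring

end Cfg

end Pool.Agent.MP_48470b_gt.TT
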