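import Pool.Agent.MP_48470b_gt.TT.X
import Pool.Agent.MP_48470b_gt.TM.Defs

/-! Taylor models in the tensor layout: semantics. -/

open Finset

namespace Pool.Agent.MP_48470b_gt.TT

open TM (pk dig Sem)

namespace Cfg

variable (c : Cfg)

/-- exponent of the variable `i` in the slot `t` -/
def ex (i : Fin 3) (t : ℕ) : ℕ := t / c.sh i % c.B i

/-- coefficients read from a number -/
def ldc (D t : ℕ) : ℤ := (dig c.w D t % 2 ^ c.u : ℕ) - 2 ^ (c.u - 1)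
def enc (f : ℕ → ℤ) : ℤ := ∑ t ∈ range c.N, f t * 2 ^ (c.w * t)
def l1 (f : ℕ → ℤ) : ℤ := ∑ t ∈ range c.N, |f t|
/-- norm of the terms with a given exponent of `X i` -/
def nm (i : Fin 3) (f : ℕ → ℤ) (p : ℕ) : ℤ := ∑ t ∈ range c.N with c.ex i t = p, |f t|
/-- `U` represents the coefficients `f`, of total size at most `n` -/
def Rep (U n : ℕ) (f : ℕ → ℤ) : Prop := (U : ℤ) ≡ c.enc f [ZMOD c.Q] ∧ c.l1 f ≤ n
def WF (a : T) : Prop := ∃ D, a = c.mkT D a.r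
/-- width of the packed norms -/
def vv (i : Fin 3) : ℕ := sel i c.w c.wB c.w
/-- `x` packs bounds for the norms along the axis `i` -/
def Nb (i : Fin 3) (x n : ℕ) (f : ℕ → ℤ) : Prop :=
  ∃ b : ℕ → ℕ, x = pk (c.vv i) (c.B i) b ∧ (∀ p < c.B i, c.nm i f p ≤ b p) ∧
    ∑ p ∈ range (c.B i), b p = n

variable {A : Type*} [CommRing A] [Algebra ℝ A] (X : Fin 3 → A)

def mono (t : ℕ) : A := X 0 ^ c.ex 0 t * X 1 ^ c.ex 1 t * X 2 ^ c.ex 2 t
noncomputable def ev (f : ℕ → ℤ) : A := ∑ t ∈ range c.N, (f t : ℝ) • c.mono X t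
/-- the polynomial of a model -/
noncomputable def pol (a : T) : A := c.ev X (c.ldc (a.U - c.QH))

def Enc (ν : Seminorm ℝ A) (p : A) (a : T) : Prop := c.WF a ∧ ν (p - c.pol X a) ≤ a.r
def EncW (ν : Seminorm ℝ A) (p : A) (x : W) : Prop :=
  ∃ f, c.Rep x.U x.n f ∧ ν (p - c.ev X f) ≤ x.r
/-- enclosure by a narrow model, independent of `u` -/
def Nar (ν : Seminorm ℝ A) (p : A) (a : T) : Prop :=
  ∃ f, c.Rep a.U a.n f ∧ c.Nb 0 a.n0 a.n f ∧ c.Nb 1 a.n1 a.n f ∧ c.Nb 2 a.n2 a.n f ∧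
    a.n < 2 ^ c.w - 1 ∧ ν (p - c.ev X f) ≤ a.r

/-- admissible parameters and seminorm -/
structure Sg (ν : Seminorm ℝ A) : Prop where
  ok : c.Ok
  sem : Sem X ν
  le : ∀ i, ν (X i) * c.gq ≤ c.gp

end Cfg

end Pool.Agent.MP_48470b_gt.TT
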