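import Pool.Agent.MP_48470b_gt.TT.Ops

/-! Soundness of the derivative in the tensor layout. -/

open Finset

namespace Pool.Agent.MP_48470b_gt.TT

open TM hiding T W Cfg hor ones bs hor_eq ones_eq bs_eq

namespace Cfg

variable {c : Cfg}

theorem Ok.sh_pos (hc : c.Ok) (i : Fin 3) : 0 < c.sh i := by
  obtain ⟨h0, h1, h2⟩ := hc.2.1
  fin_cases i
  exacts [Nat.mul_pos (by omega) (by omega), show 0 < c.B2 by omega, one_pos]

theorem rp_mul (i : Fin 3) : c.rp i * (c.B i * c.sh i) = c.N := by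
  fin_cases i
  exacts [one_mul _, rfl, by
    show c.B0 * c.B1 * (c.B2 * 1) = _
    rw [N_eq, S_eq]; ring]

theorem mask_eq (hc : c.Ok) (i : Fin 3) (b : ℕ) :
    c.mask i b = pk c.w c.N fun t => dig 1 (c.ex i t) b * (2 ^ c.w - 1) := by
  have hw : 0 < c.w := by have := hc.u_lt; omega
  have hg := hc.sh_pos i
  have h1 : 2 ^ (c.w * c.sh i) - 1 = pk c.w (c.sh i) fun _ => 1 * (2 ^ c.w - 1) := by
    rw [← pk_mul, ← TM.ones_eq hw]
    exact (Nat.div_mul_cancel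
      (by simpa [pow_mul] using Nat.sub_dvd_pow_sub_pow (2 ^ c.w) 1 (c.sh i))).symm
  rw [show c.mask i b = (2 ^ (c.w * c.sh i) - 1) * hor (c.w * c.sh i) (c.B i)
    (fun k => k >>> b &&& 1) * hor (c.w * c.sh i * c.B i) (c.rp i) fun _ => 1 from rfl, hor_eq,
    hor_eq, mul_comm _ (pk _ (c.rp i) _), pk_mul, ← rp_mul i, pk_pk,
    show c.w * (c.B i * c.sh i) = c.w * c.sh i * c.B i by ring]
  refine pk_congr fun a _ => ?_
  rw [one_mul, mul_comm, pk_mul, pk_pk]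
  refine pk_congr fun j hj => ?_
  rw [h1, mul_comm, pk_mul]
  refine pk_congr fun k hk => ?_
  rw [ex, show a * (c.B i * c.sh i) + (j * c.sh i + k) = k + c.sh i * (j + c.B i * a) by ring,
    Nat.add_mul_div_left _ _ hg, Nat.div_eq_of_lt hk, zero_add, Nat.add_mul_mod_self_left,
    Nat.mod_eq_of_lt hj, dig, one_mul, one_mul, pow_one, Nat.and_one_is_mod,
    Nat.shiftRight_eq_div_pow, mul_comm]

theorem sh_le (hc : c.Ok) (i : Fin 3) : c.sh i ≤ c.N := by
  simpa using (sh_mul hc i (m := 1) (by omega)).2.le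

theorem Ok.mul_lt (hc : c.Ok) {x y : ℕ} (hx : x < 2 ^ c.u) (hy : y ≤ 2 ^ c.l) :
    x * y < 2 ^ c.w :=
  (Nat.mul_lt_mul_of_lt_of_le hx hy (by positivity)).trans_le
    (by rw [← pow_add]; exact Nat.pow_le_pow_right two_pos hc.2.2.2.2.1)

theorem wts_eq (hc : c.Ok) (i : Fin 3) {e : ℕ → ℕ} (he : ∀ t < c.N, e t < 2 ^ c.u) :
    c.wts i (pk c.w c.N e) =
      pk c.w (c.N - c.sh i) fun t => e (c.sh i + t) * c.ex i (c.sh i + t) := by
  have hl : ∀ t, c.ex i t < 2 ^ c.l := fun t => (hc.ex_lt i t).trans_le (hc.B_le i)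
  have h1 : ∀ b ∈ range c.l, pk c.w c.N e <<< b &&& c.mask i b =
      pk c.w c.N fun t => e t * (dig 1 (c.ex i t) b * 2 ^ (1 * b)) := by
    intro b hb
    have h2 : ∀ t, dig 1 (c.ex i t) b = 0 ∨ dig 1 (c.ex i t) b = 1 := fun t => by
      have := dig_lt 1 (c.ex i t) b
      omega
    have h3 : ∀ t < c.N, e t * 2 ^ b < 2 ^ c.w := fun t ht =>
      hc.mul_lt (he t ht) (Nat.pow_le_pow_right two_pos (mem_range.1 hb).le)
    rw [mask_eq hc, Nat.shiftLeft_eq, pk_mul, land_pk fun t _ => by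
      have : 0 < 2 ^ c.w := by positivity
      rcases h2 t with h | h <;> rw [h] <;> omega]
    refine pk_congr fun t ht => ?_
    rw [dig_pk h3 ht]
    rcases h2 t with h | h <;> rw [h]
    · simp
    · rw [one_mul, one_mul, one_mul, Nat.and_two_pow_sub_one_eq_mod, Nat.mod_eq_of_lt (h3 t ht)]
  rw [show c.wts i (pk c.w c.N e) = sm c.l (fun b => pk c.w c.N e <<< b &&& c.mask i b) >>>
    (c.w * c.sh i) from rfl, sm_eq, sum_congr rfl h1, pk_sum_comm, Nat.shiftRight_eq_div_pow,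
    pk_congr (g := fun t => e t * c.ex i t) fun t _ => by
      rw [← mul_sum, ← pk, pk_dig, one_mul, Nat.mod_eq_of_lt (hl t)]]
  conv_lhs => rw [← Nat.add_sub_cancel' (sh_le hc i)]
  exact pk_div fun t ht => hc.mul_lt (he t (ht.trans_le (sh_le hc i))) (hl t).le

/-- lowering an exponent -/
theorem lower (hc : c.Ok) (i : Fin 3) {t : ℕ} (ht : t < c.N) (h : c.ex i t ≠ 0) :
    ∃ s, t = c.sh i + s ∧ ∀ j, c.ex j s = c.ex j t - if j = i then 1 else 0 := by
  have h1 := dec ht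
  have b0 : c.ex 0 t < c.B0 := hc.ex_lt 0 t
  have b1 : c.ex 1 t < c.B1 := hc.ex_lt 1 t
  have b2 : c.ex 2 t < c.B2 := hc.ex_lt 2 t
  obtain ⟨m, hm⟩ := Nat.exists_eq_succ_of_ne_zero h
  fin_cases i
  · change c.ex 0 t = m + 1 at hm
    obtain ⟨k1, k2, k3, -⟩ := comp (i := m) (by omega) b1 b2
    refine ⟨_, ?_, fun j => by fin_cases j; exacts [k1.trans (by simp [hm]), k2, k3]⟩
    rw [hm, add_mul] at h1
    change t = c.S + _
    omega
  · change c.ex 1 t = m + 1 at hm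
    obtain ⟨k1, k2, k3, -⟩ := comp (j := m) b0 (by omega) b2
    refine ⟨_, ?_, fun j => by fin_cases j; exacts [k1, k2.trans (by simp [hm]), k3]⟩
    rw [hm, add_mul] at h1
    change t = c.B2 + _
    omega
  · change c.ex 2 t = m + 1 at hm
    obtain ⟨k1, k2, k3, -⟩ := comp (k := m) b0 b1 (by omega)
    refine ⟨_, ?_, fun j => by fin_cases j; exacts [k1, k2, k3.trans (by simp [hm])]⟩
    change t = 1 + _
    omega

/-- coefficients of the derivative -/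
def dc (c : Cfg) (i : Fin 3) (f : ℕ → ℤ) (t : ℕ) : ℤ :=
  if t < c.N - c.sh i then f (c.sh i + t) * c.ex i (c.sh i + t) else 0

theorem sum_dc (i : Fin 3) {M : Type*} [AddCommMonoid M] (φ : ℤ → ℕ → M)
    (h0 : ∀ t, φ 0 t = 0) (f : ℕ → ℤ) : ∑ t ∈ range c.N, φ (c.dc i f t) t =
      ∑ t ∈ range (c.N - c.sh i), φ (f (c.sh i + t) * c.ex i (c.sh i + t)) t := by
  rw [← sum_subset (range_subset_range.2 (Nat.sub_le c.N (c.sh i))) fun t _ ht => by
    rw [dc, if_neg (by simpa using ht), h0]]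
  exact sum_congr rfl fun t ht => by rw [dc, if_pos (mem_range.1 ht)]

theorem dU_rep (hc : c.Ok) (i : Fin 3) {e : ℕ → ℕ} {f : ℕ → ℤ} {n : ℕ}
    (he : ∀ t < c.N, (e t : ℤ) = f t + (2 ^ (c.u - 1) : ℕ) ∧ e t < 2 ^ c.u) (hn : c.l1 f ≤ n) :
    c.Rep (c.dU i (pk c.w c.N e)) (n * c.B' i) (c.dc i f) := by
  have hw : 2 ^ (c.u - 1) < 2 ^ c.u := Nat.pow_lt_pow_right one_lt_two (by have := hc.1; omega)
  refine ⟨?_, ?_⟩
  · have h1 := wts_eq hc i fun t ht => (he t ht).2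
    have h2 := wts_eq hc i (e := fun _ => 2 ^ (c.u - 1)) fun _ _ => hw
    rw [← Hb_eq hc] at h2
    have h3 : c.wts i c.Hb ≤ c.Q := by
      rw [h2]
      exact (pk_lt fun t _ => hc.mul_lt hw ((hc.ex_lt i _).le.trans (hc.B_le i))).le.trans
        (Nat.pow_le_pow_right two_pos (Nat.mul_le_mul_left _ (Nat.sub_le _ _)))
    rw [show c.dU i (pk c.w c.N e) = c.wts i (pk c.w c.N e) + (c.Q - c.wts i c.Hb) from rfl,
      Nat.cast_add, Nat.cast_sub h3, h1, h2, pk_cast, pk_cast,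
      enc, sum_dc i (fun z t => z * 2 ^ (c.w * t)) (by simp), sum_congr rfl fun t ht => by
        rw [Nat.cast_mul, (he _ (by have := mem_range.1 ht; omega)).1, add_mul, add_mul],
      sum_add_distrib]
    refine Int.modEq_iff_dvd.2 ⟨-1, ?_⟩
    push_cast
    ring
  · rw [l1, sum_dc i (fun z _ => |z|) (by simp)]
    refine le_trans ?_ (show c.l1 f * c.B' i ≤ _ by
      simpa using mul_le_mul_of_nonneg_right hn (Int.natCast_nonneg (c.B' i)))
    rw [l1, sum_mul]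
    conv_rhs => rw [← Nat.add_sub_cancel' (sh_le hc i), sum_range_add]
    refine le_add_of_nonneg_of_le (sum_nonneg fun _ _ => by positivity)
      (sum_le_sum fun t _ => ?_)
    rw [abs_mul, Nat.abs_cast]
    exact mul_le_mul_of_nonneg_left (Int.ofNat_le.2 (Nat.le_sub_one_of_lt (hc.ex_lt i _)))
      (abs_nonneg _)

theorem der_rep (hc : c.Ok) (i : Fin 3) (L D r : ℕ) :
    c.Rep (c.der i L (c.mkT D r)).U (c.der i L (c.mkT D r)).n (c.dc i (c.ldc D)) := by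
  have h := dU_rep hc i (e := c.de D) (fun t _ => ⟨by simp [ldc_eq], de_lt D t⟩)
    (mkT_rep hc D r).2
  rwa [← Nat.add_sub_cancel (n := pk c.w c.N (c.de D)) (m := c.QH), ← mkT_U hc D r] at h

theorem derW_rep (hc : c.Ok) (i : Fin 3) (L : ℕ) {x : W} {f : ℕ → ℤ} (h : c.Rep x.U x.n f)
    (hn : x.n < 2 ^ (c.u - 1)) : c.Rep (c.derW i L x).U (c.derW i L x).n (c.dc i f) := by
  have h1 := hc.pow_u
  have h2 := hc.ult
  obtain ⟨e, he, e1⟩ := h.dig hc hn.le (by omega)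
  have h3 := dU_rep hc i (fun t ht => ⟨(he t ht).1, by have := (he t ht).2; omega⟩) h.2
  rwa [← e1, ← Nat.shiftLeft_eq, ← land_Q1] at h3

variable {A : Type*} [CommRing A] [Algebra ℝ A] {X : Fin 3 → A} {ν : Seminorm ℝ A}
  {p : A} {a : T} {x : W}

theorem der_ev (hc : c.Ok) (i : Fin 3) (δ : Derivation ℝ A A)
    (hδ : ∀ j, δ (X j) = if j = i then 1 else 0) (f : ℕ → ℤ) :
    δ (c.ev X f) = c.ev X (c.dc i f) := by
  have h1 : ∀ t, δ (c.mono X t) = c.ex i t • (X 0 ^ (c.ex 0 t - if 0 = i then 1 else 0) *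
      X 1 ^ (c.ex 1 t - if 1 = i then 1 else 0) * X 2 ^ (c.ex 2 t - if 2 = i then 1 else 0)) := by
    intro t
    simp only [mono, Derivation.leibniz, Derivation.leibniz_pow, hδ]
    fin_cases i <;> simp <;> ring
  have h0 := sh_le hc i
  rw [ev, ev, sum_dc i (fun z t => (z : ℝ) • c.mono X t) (by simp), map_sum]
  conv_lhs => rw [← Nat.add_sub_cancel' h0, sum_range_add]
  rw [sum_eq_zero fun t ht => ?_, zero_add]
  · refine sum_congr rfl fun t ht => ?_
    rw [Derivation.map_smul, h1]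
    by_cases h2 : c.ex i (c.sh i + t) = 0
    · simp [h2]
    · obtain ⟨s, h3, h4⟩ := lower hc i (by have := mem_range.1 ht; omega) h2
      rw [← h4, ← h4, ← h4, ← Nat.add_left_cancel h3, ← mono, ← Nat.cast_smul_eq_nsmul ℝ,
        smul_smul]
      push_cast
      rfl
  · rw [Derivation.map_smul, h1, ex, Nat.div_eq_of_lt (mem_range.1 ht)]
    simp

theorem Enc.der (hc : c.Ok) {ν' : Seminorm ℝ A} (i : Fin 3) (δ : Derivation ℝ A A)
    (hδ : ∀ j, δ (X j) = if j = i then 1 else 0) {L : ℕ} (hL : ∀ e, ν (δ e) ≤ L * ν' e)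
    (h : c.Enc X ν' p a) : c.EncW X ν (δ p) (c.der i L a) := by
  obtain ⟨⟨D, h1⟩, h2⟩ := h
  refine ⟨c.dc i (c.ldc D), h1 ▸ der_rep hc i L D a.r, ?_⟩
  rw [show c.pol X a = c.ev X (c.ldc D) by rw [h1, pol_mkT hc]] at h2
  rw [← der_ev hc i δ hδ, ← map_sub]
  refine (hL _).trans ?_
  simpa [Cfg.der, mul_comm] using mul_le_mul_of_nonneg_left h2 (Nat.cast_nonneg L)

theorem EncW.derW (hc : c.Ok) {ν' : Seminorm ℝ A} (i : Fin 3) (δ : Derivation ℝ A A)
    (hδ : ∀ j, δ (X j) = if j = i then 1 else 0) {L : ℕ} (hL : ∀ e, ν (δ e) ≤ L * ν' e)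
    (h : c.EncW X ν' p x) (hn : x.n < 2 ^ (c.u - 1)) : c.EncW X ν (δ p) (c.derW i L x) := by
  obtain ⟨f, h1, h2⟩ := h
  refine ⟨c.dc i f, derW_rep hc i L h1 hn, ?_⟩
  rw [← der_ev hc i δ hδ, ← map_sub]
  refine (hL _).trans ?_
  simpa [Cfg.derW, mul_comm] using mul_le_mul_of_nonneg_left h2 (Nat.cast_nonneg L)

end Cfg

end Pool.Agent.MP_48470b_gt.TT
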