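import Pool.Agent.MP_48470b_gt.TT.Mk

/-! Soundness of the arithmetic operations in the tensor layout. -/

open Finset

namespace Pool.Agent.MP_48470b_gt.TT

open TM hiding T W Cfg hor ones bs hor_eq ones_eq bs_eq

namespace Cfg

variable {c c' : Cfg} {A : Type*} [CommRing A] [Algebra ℝ A] {X : Fin 3 → A} {ν : Seminorm ℝ A}
  {p q : A} {a b : T} {x y : W}

theorem wf_mkT (D r : ℕ) : c.WF (c.mkT D r) := ⟨D, rfl⟩

theorem WF.setr (h : c.WF a) (r : ℕ) : c.WF (a.setr r) := by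
  obtain ⟨D, h⟩ := h
  exact ⟨D, by rw [h]; rfl⟩

theorem pol_setr (a : T) (r : ℕ) : c.pol X (a.setr r) = c.pol X a := rfl

theorem WF.of_le (h : c.WF a) {e : ℕ} (he : ν (p - c.pol X a) ≤ e) : c.Enc X ν p (a.setr e) :=
  ⟨h.setr e, he⟩

theorem WF.enc (h : c.WF a) : c.Enc X ν (c.pol X a) (a.setr 0) := h.of_le (by simp)

theorem load (hc : c.Ok) (D : ℕ) : c.Enc X ν (c.ev X (c.ldc D)) (c.mkT D 0) :=
  ⟨wf_mkT D 0, by rw [pol_mkT hc, sub_self, map_zero]; exact Nat.cast_nonneg _⟩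

theorem WF.spec (hc : c.Ok) (h : c.WF a) : ∃ f : ℕ → ℤ, c.Rep a.U a.n f ∧
    c.pol X a = c.ev X f ∧ (a.U : ℤ) = c.enc f + c.Q ∧ c.Nb 0 a.n0 a.n f ∧ c.Nb 1 a.n1 a.n f ∧
    c.Nb 2 a.n2 a.n f ∧ a.n < 2 ^ c.w - 1 := by
  obtain ⟨D, h⟩ := h
  rw [h]
  exact ⟨_, mkT_rep hc _ _, pol_mkT hc _ _, mkT_enc hc _ _, mkT_nb hc D a.r⟩

theorem Enc.mono {ν' : Seminorm ℝ A} (h : c.Enc X ν' p a) (hν : ∀ e, ν e ≤ ν' e) :
    c.Enc X ν p a := ⟨h.1, (hν _).trans h.2⟩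

theorem Enc.nar (hc : c.Ok) (h : c.Enc X ν p a) : c.Nar X ν p a := by
  obtain ⟨f, h1, h2, -, h3, h4, h5, h6⟩ := h.1.spec (X := X) hc
  exact ⟨f, h1, h3, h4, h5, h6, h2 ▸ h.2⟩

theorem nar_wu {u : ℕ} : (c.wu u).Nar X ν p a ↔ c.Nar X ν p a := Iff.rfl

theorem encW_wu {u : ℕ} : (c.wu u).EncW X ν p x ↔ c.EncW X ν p x := Iff.rfl

theorem Sg.wu (H : c.Sg X ν) {u : ℕ} (h : (c.wu u).Ok) : (c.wu u).Sg X ν := ⟨h, H.sem, H.le⟩

theorem Nar.lift (h : c.Nar X ν p a) : c.EncW X ν p a.lift := by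
  obtain ⟨f, h1, -, -, -, -, h2⟩ := h
  exact ⟨f, h1, h2⟩

theorem Enc.lift (hc : c.Ok) (h : c.Enc X ν p a) : c.EncW X ν p a.lift := (h.nar hc).lift

theorem EncW.le (hν : Sem X ν) (h : c.EncW X ν p x) : ν p ≤ (x.n + x.r : ℕ) := by
  obtain ⟨f, ⟨-, h1⟩, h2⟩ := h
  have h3 := map_add_le_add ν (p - c.ev X f) (c.ev X f)
  have h4 := nu_ev (c := c) hν f
  have h5 : (c.l1 f : ℝ) ≤ x.n := by exact_mod_cast h1
  rw [sub_add_cancel] at h3
  push_cast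
  linarith

theorem Enc.le (hc : c.Ok) (hν : Sem X ν) (h : c.Enc X ν p a) : ν p ≤ (a.n + a.r : ℕ) :=
  (h.lift hc).le hν

theorem EncW.setU (h : c.EncW X ν p x) {U : ℕ} (hU : U ≡ x.U [MOD c.Q]) :
    c.EncW X ν p (x.setU U) := by
  obtain ⟨f, ⟨h1, h2⟩, h3⟩ := h
  exact ⟨f, ⟨(Int.natCast_modEq_iff.2 hU).trans h1, h2⟩, h3⟩

theorem Rep.add {U n U' n' : ℕ} {f g : ℕ → ℤ} (h : c.Rep U n f) (k : c.Rep U' n' g) :
    c.Rep (U + U') (n + n') (f + g) := by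
  refine ⟨?_, ?_⟩
  · rw [enc_add]
    exact_mod_cast h.1.add k.1
  · refine le_trans ?_ (show c.l1 f + c.l1 g ≤ _ by simpa using add_le_add h.2 k.2)
    rw [l1, l1, l1, ← sum_add_distrib]
    exact sum_le_sum fun t _ => abs_add_le _ _

theorem EncW.add (hx : c.EncW X ν p x) (hy : c.EncW X ν q y) : c.EncW X ν (p + q) (x.add y) := by
  obtain ⟨f, h1, h4⟩ := hx
  obtain ⟨g, k1, k4⟩ := hy
  refine ⟨f + g, h1.add k1, ?_⟩
  rw [ev_add, add_sub_add_comm]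
  exact (map_add_le_add ν _ _).trans (by simpa [W.add] using add_le_add h4 k4)

theorem land_Q1 (U : ℕ) : Nat.land c.Q1 U = U % c.Q := land_m2 _ _

theorem Q_pos : 0 < c.Q := by rw [Q_eq]; positivity

theorem ngU_eq (U : ℕ) : (c.ngU U : ℤ) ≡ -U [ZMOD c.Q] := by
  rw [ngU, land_Q1, Nat.sub_eq, Nat.cast_sub (Nat.mod_lt _ Q_pos).le, Int.natCast_mod]
  simpa using (Int.modulus_modEq_zero (n := c.Q)).sub (Int.mod_modEq U c.Q)

theorem EncW.neg (hx : c.EncW X ν p x) : c.EncW X ν (-p) (c.neg x) := by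
  obtain ⟨f, ⟨h1, h3⟩, h4⟩ := hx
  refine ⟨-f, ⟨?_, by simpa [l1, Cfg.neg] using h3⟩, ?_⟩
  · rw [enc_neg]
    exact (ngU_eq _).trans h1.neg
  · rwa [ev_neg, ← neg_sub', map_neg_eq_map]

theorem EncW.sub (hx : c.EncW X ν p x) (hy : c.EncW X ν q y) :
    c.EncW X ν (p - q) (c.sub x y) := by
  rw [sub_eq_add_neg]
  exact hx.add hy.neg

theorem EncW.smul (hx : c.EncW X ν p x) (k : ℕ) : c.EncW X ν ((k : ℝ) • p) (x.smul k) := by
  obtain ⟨f, ⟨h1, h3⟩, h4⟩ := hx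
  refine ⟨(k : ℤ) • f, ⟨?_, ?_⟩, ?_⟩
  · rw [enc_smul]
    simpa [W.smul] using h1.mul_right k
  · refine le_trans (le_of_eq ?_) (show c.l1 f * k ≤ _ by
      simpa [W.smul] using mul_le_mul_of_nonneg_right h3 (Int.natCast_nonneg k))
    simp [l1, mul_sum, abs_mul, mul_comm]
  · rw [ev_smul, Int.cast_natCast, ← smul_sub, map_smul_eq_mul, Real.norm_natCast, mul_comm]
    simpa [W.smul] using mul_le_mul_of_nonneg_right h4 (Nat.cast_nonneg k)

theorem EncW.shl (hx : c.EncW X ν p x) (k : ℕ) : c.EncW X ν ((2 : ℝ) ^ k • p) (x.shl k) := by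
  simpa [W.shl, W.smul, Nat.shiftLeft_eq] using hx.smul (2 ^ k)

theorem EncW.zmul (hx : c.EncW X ν p x) (k : ℤ) : c.EncW X ν ((k : ℝ) • p) (c.zmul k x) := by
  cases k with
  | ofNat n => simpa [Cfg.zmul] using hx.smul n
  | negSucc n =>
    have := (hx.smul (n + 1)).neg
    rwa [← neg_smul, ← Int.cast_natCast, ← Int.cast_neg] at this

theorem EncW.addr (hx : c.EncW X ν p x) {e : ℕ} (he : ν (q - p) ≤ e) :
    c.EncW X ν q (x.addr e) := by
  obtain ⟨f, h1, h4⟩ := hx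
  refine ⟨f, h1, ?_⟩
  have := map_add_le_add ν (q - p) (p - c.ev X f)
  rw [sub_add_sub_cancel] at this
  simp only [W.addr, Nat.add_eq]
  push_cast
  linarith

theorem single {s : ℕ} (hs : s < c.N) (k : ℕ) :
    c.EncW X ν ((k : ℝ) • c.mono X s) ⟨k <<< (c.w * s), k, 0⟩ := by
  refine ⟨fun t => if t = s then k else 0, ⟨?_, ?_⟩, ?_⟩
  · simp [enc, hs, Nat.shiftLeft_eq]
  · simp [l1, apply_ite, hs]
  · simp [ev, hs]

theorem Ok.N_pos (hc : c.Ok) : 0 < c.N := by have := hc.N_ge; omega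

omit [Algebra ℝ A] in
theorem mono_zero : c.mono X 0 = 1 := by simp [mono, ex]

theorem const (hc : c.Ok) (k : ℕ) : c.EncW X ν ((k : ℝ) • 1) (W.const k) := by
  simpa [mono_zero, W.const] using single (X := X) (ν := ν) hc.N_pos k

theorem sh_mul (hc : c.Ok) (i : Fin 3) {m : ℕ} (hm : m < 3) :
    (∀ j, c.ex j (m * c.sh i) = if j = i then m else 0) ∧ m * c.sh i < c.N := by
  obtain ⟨h0, h1, h2⟩ := hc.2.1
  fin_cases i
  · obtain ⟨e0, e1, e2, e3⟩ := comp (c := c) (i := m) (j := 0) (k := 0) (by omega) (by omega)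
      (by omega)
    simp only [zero_mul, add_zero] at e0 e1 e2 e3
    exact ⟨fun j => by fin_cases j; exacts [e0, e1, e2], e3⟩
  · obtain ⟨e0, e1, e2, e3⟩ := comp (c := c) (i := 0) (j := m) (k := 0) (by omega) (by omega)
      (by omega)
    simp only [zero_mul, add_zero, zero_add] at e0 e1 e2 e3
    exact ⟨fun j => by fin_cases j; exacts [e0, e1, e2], e3⟩
  · obtain ⟨e0, e1, e2, e3⟩ := comp (c := c) (i := 0) (j := 0) (k := m) (by omega) (by omega)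
      (by omega)
    simp only [zero_mul, zero_add] at e0 e1 e2 e3
    rw [← mul_one m] at e0 e1 e2 e3
    rw [mul_one] at e0 e1 e2
    exact ⟨fun j => by fin_cases j; exacts [(mul_one m).symm ▸ e0, (mul_one m).symm ▸ e1,
      (mul_one m).symm ▸ e2], e3⟩

omit [Algebra ℝ A] in
theorem mono_sh (hc : c.Ok) (i : Fin 3) {m : ℕ} (hm : m < 3) :
    c.mono X (m * c.sh i) = X i ^ m := by
  simp only [mono, (sh_mul hc i hm).1]
  fin_cases i <;> simp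

theorem var_enc (hc : c.Ok) (i : Fin 3) (k : ℕ) : c.EncW X ν ((k : ℝ) • X i) (c.var i k) := by
  have h := single (X := X) (ν := ν) (sh_mul hc i (m := 1) (by omega)).2 k
  rwa [mono_sh hc i (by omega), pow_one, one_mul] at h

theorem Nar.mul (H : c.Sg X ν) (ha : c.Nar X ν p a) (hb : c.Nar X ν q b) :
    c.EncW X ν (p * q) (c.mul a b) := by
  obtain ⟨f, ⟨h1, h3⟩, a0, a1, a2, -, e1⟩ := ha
  obtain ⟨g, ⟨k1, k3⟩, b0, b1, b2, -, e2⟩ := hb
  have hν := H.sem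
  refine ⟨c.conv f g, ⟨?_, ?_⟩, ?_⟩
  · rw [Cfg.mul, land_Q1, Int.natCast_mod, Nat.mul_eq, Nat.cast_mul]
    exact (Int.mod_modEq _ _).trans ((h1.mul k1).trans (enc_conv f g))
  · refine (l1_conv f g).trans ?_
    simpa [Cfg.mul] using mul_le_mul h3 k3 (l1_nonneg g) (Int.natCast_nonneg _)
  · have t2 := H.conv a0 a1 a2 b0 b1 b2
    have n1 : ν (c.ev X f) ≤ a.n := (nu_ev hν f).trans (by exact_mod_cast h3)
    have n2 : ν (c.ev X g) ≤ b.n := (nu_ev hν g).trans (by exact_mod_cast k3)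
    have m1 := hν.mul_le e1 n2
    have m2 := hν.mul_le e2 n1
    have m3 := hν.mul_le e1 e2
    rw [show p * q - c.ev X (c.conv f g) = (c.ev X f * c.ev X g - c.ev X (c.conv f g)) +
      ((p - c.ev X f) * c.ev X g + (q - c.ev X g) * c.ev X f +
        (p - c.ev X f) * (q - c.ev X g)) by ring,
      show (c.mul a b).r = c.tt a b + (a.r * b.n + b.r * a.n + a.r * b.r) from rfl,
      Nat.cast_add]
    refine (map_add_le_add ν _ _).trans (add_le_add t2 ?_)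
    push_cast
    exact (map_add_le_add ν _ _).trans (add_le_add ((map_add_le_add ν _ _).trans
      (add_le_add m1 m2)) m3)

theorem sqr_eq (a : T) : c.sqr a = c.mul a a :=
  congrArg (fun U => (⟨Nat.land c.Q1 U, a.n * a.n, c.mr a a⟩ : W)) (Nat.pow_two a.U)

theorem Enc.mul (H : c.Sg X ν) (ha : c.Enc X ν p a) (hb : c.Enc X ν q b) :
    c.EncW X ν (p * q) (c.mul a b) := (ha.nar H.ok).mul H (hb.nar H.ok)

/-- offset digits of a represented family -/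
theorem Rep.dig (hc : c.Ok) {U n K : ℕ} {f : ℕ → ℤ} (h : c.Rep U n f) (hn : n ≤ K)
    (hK : n + K < 2 ^ c.w) : ∃ e : ℕ → ℕ, (∀ t < c.N, (e t : ℤ) = f t + K ∧ e t ≤ n + K) ∧
      (U + c.VO * K) % c.Q = pk c.w c.N e := by
  have hf : ∀ t < c.N, ∃ e : ℕ, (e : ℤ) = f t + K ∧ e ≤ n + K := fun t ht => by
    have h5 := abs_le.1 ((abs_le_l1 f ht).trans h.2)
    exact ⟨(f t + K).toNat, by omega⟩
  choose! e he using hf
  refine ⟨e, he, ?_⟩
  rw [← Nat.mod_eq_of_lt (pk_lt fun t ht => (he t ht).2.trans_lt hK), VO_mul hc]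
  refine Int.natCast_modEq_iff.1 ?_
  rw [Nat.cast_add, pk_cast _ _ e, sum_congr rfl fun t ht => by
    rw [(he t (mem_range.1 ht)).1, add_mul], sum_add_distrib, pk_cast]
  exact h.1.add (Int.ModEq.refl _)

theorem ldc_Hb (hc : c.Ok) {t : ℕ} (ht : t < c.N) : c.ldc c.Hb t = 0 := by
  rw [ldc_eq, Hb_eq hc, de_pk' hc (fun _ _ => Nat.pow_lt_pow_right one_lt_two
    (by have := hc.1; omega)) ht]
  simp

theorem rnd_spec (H : c.Sg X ν) (σ : ℕ) {f : ℕ → ℤ} (h : c.Rep x.U x.n f) :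
    ∃ D, c.rnd σ x = c.mkT D (c.rnd σ x).r ∧
      ν (c.ev X (f - (2 ^ σ : ℤ) • c.ldc D)) + x.r ≤ 2 ^ σ * (c.rnd σ x).r := by
  have hc := H.ok
  have hP : 0 < 2 ^ σ := by positivity
  have hu := hc.1
  unfold rnd
  cases hb : (Nat.blt (Nat.add x.n (hfp σ)) (c.lmt σ) && Nat.ble (Nat.add σ c.u) c.w)
  · refine ⟨c.Hb, rfl, ?_⟩
    have h4 := (Nat.lt_mul_div_succ (x.n + x.r) hP).le
    rw [← Nat.shiftRight_eq_div_pow] at h4
    have h5 : ((x.n + x.r : ℕ) : ℝ) ≤ (2 ^ σ * ((x.n + x.r) >>> σ + 1) : ℕ) := by exact_mod_cast h4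
    have h6 := (nu_ev H.sem f).trans (show (c.l1 f : ℝ) ≤ x.n by exact_mod_cast h.2)
    rw [ev_congr (g := f) fun t ht => by simp [ldc_Hb hc ht]]
    rw [Nat.cast_mul, Nat.cast_pow, Nat.cast_ofNat, Nat.cast_add] at h5
    exact le_trans (by linarith) h5
  · simp only [Bool.and_eq_true, Nat.blt_eq, Nat.ble_eq, Nat.add_eq] at hb
    refine ⟨_, rfl, ?_⟩
    obtain ⟨K, hK⟩ : ∃ K, K = c.lmt σ := ⟨_, rfl⟩
    obtain ⟨h0, hh⟩ : ∃ h0, h0 = hfp σ := ⟨_, rfl⟩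
    have hK2 : 2 ^ σ * 2 ^ c.u = 2 * K := by
      rw [hK, lmt, p2_eq, ← pow_add, ← pow_succ']; congr 1; simp only [Nat.sub_eq, Nat.add_eq]; omega
    have hK3 : 2 ^ σ * 2 ^ (c.u - 1) = K := by
      rw [hK, lmt, p2_eq, ← pow_add]; congr 1; simp only [Nat.sub_eq, Nat.add_eq]; omega
    have hw : 2 * K ≤ 2 ^ c.w := by
      rw [← hK2, ← pow_add]; exact Nat.pow_le_pow_right two_pos hb.2
    have hh2 : h0 = 2 ^ σ / 2 := hh
    rw [← hK, ← hh] at hb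
    obtain ⟨e, he, e1⟩ := h.dig hc (K := K + h0) (by omega) (by omega)
    have e2 : ∀ t ∈ range c.N, |(f - (2 ^ σ : ℤ) • c.ldc ((x.U + c.VO * (K + h0)) >>> σ)) t|
        ≤ h0 := by
      intro t ht
      have ht := mem_range.1 ht
      obtain ⟨h4, h4'⟩ := he t ht
      rw [Pi.sub_apply, Pi.smul_apply, ldc_eq, de, Nat.shiftRight_eq_div_pow, dig_shr hb.2,
        ← dig_mod ht, ← Q_eq, e1, dig_pk (fun t ht => by have := (he t ht).2; omega) ht,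
        Nat.mod_eq_of_lt (Nat.div_lt_of_lt_mul (by omega))]
      have h5 := Nat.div_add_mod (e t) (2 ^ σ)
      have h6 := Nat.mod_lt (e t) hP
      have h7 : f t - (2 ^ σ : ℤ) • (((e t / 2 ^ σ : ℕ) : ℤ) - 2 ^ (c.u - 1)) =
          (e t % 2 ^ σ : ℕ) - h0 := by
        zify at h5 hK3 ⊢
        rw [smul_eq_mul]
        push_cast at h4
        linear_combination hK3 - h4 - h5
      rw [h7, abs_le]
      omega
    have e3 : ν (c.ev X (f - (2 ^ σ : ℤ) • c.ldc ((x.U + c.VO * (K + h0)) >>> σ))) ≤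
        (c.cnt * h0 : ℕ) := by
      rw [ev_eq, Nat.cast_mul]
      refine (nu_wsum _ _ _).trans (le_trans ?_
        (mul_le_mul_of_nonneg_right H.cnt_ge (Nat.cast_nonneg h0)))
      rw [sum_mul]
      refine sum_le_sum fun t ht => ?_
      rw [mul_comm]
      exact mul_le_mul_of_nonneg_left (by exact_mod_cast e2 t ht) (apply_nonneg _ _)
    have h4 : c.cnt * h0 + x.r ≤ 2 ^ σ * ((x.r + c.cnt * h0 + (2 ^ σ - 1)) >>> σ) := by
      have h5 := Nat.div_add_mod (x.r + c.cnt * h0 + (2 ^ σ - 1)) (2 ^ σ)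
      have h6 := Nat.mod_lt (x.r + c.cnt * h0 + (2 ^ σ - 1)) hP
      rw [Nat.shiftRight_eq_div_pow]
      omega
    subst hK hh
    exact (add_le_add_left e3 _).trans (by exact_mod_cast h4)

theorem wf_rnd (σ : ℕ) (x : W) : c.WF (c.rnd σ x) := by
  unfold rnd
  cases (Nat.blt (Nat.add x.n (hfp σ)) (c.lmt σ) && Nat.ble (Nat.add σ c.u) c.w) <;>
    exact wf_mkT _ _

theorem EncW.rnd (H : c.Sg X ν) (σ : ℕ) (h : c.EncW X ν ((2 : ℝ) ^ σ • p) x) :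
    c.Enc X ν p (c.rnd σ x) := by
  obtain ⟨f, h1, h2⟩ := h
  obtain ⟨D, h3, h4⟩ := rnd_spec H σ h1
  refine ⟨wf_rnd σ x, ?_⟩
  have h6 := map_add_le_add ν ((2 : ℝ) ^ σ • p - c.ev X f) (c.ev X (f - (2 ^ σ : ℤ) • c.ldc D))
  rw [ev_sub, ev_smul] at h4 h6
  rw [sub_add_sub_cancel] at h6
  push_cast at h4 h6
  rw [← smul_sub, map_smul_eq_mul, Real.norm_of_nonneg (by positivity)] at h6
  rw [show c.pol X (c.rnd σ x) = c.ev X (c.ldc D) by rw [h3, pol_mkT H.ok]]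
  exact le_of_mul_le_mul_left (by linarith) (show (0 : ℝ) < 2 ^ σ by positivity)

theorem Nar.inv (H : c.Sg X ν) {s σ : ℕ} (ha : c.Nar X ν p a) (hb : c.WF b)
    (hq : p * q = (2 : ℝ) ^ s • 1) (hk : c.invOk s σ a b = true) :
    c.Enc X ν q (c.inv s σ a b) := by
  have hc := H.ok
  have hν := H.sem
  have h1 := (const hc (2 ^ s)).sub (ha.mul H (hb.enc.nar hc))
  have hP : (0 : ℝ) < 2 ^ σ := by positivity
  have hS : (0 : ℝ) < 2 ^ s := by positivity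
  rw [← smul_inv_smul₀ hP.ne' (_ - _)] at h1
  have h2 := (h1.rnd H σ).le hc hν
  rw [map_smul_eq_mul, Real.norm_of_nonneg (by positivity), inv_mul_le_iff₀ hP,
    mul_comm (2 ^ σ : ℝ)] at h2
  have h3 : ν (((2 ^ s : ℕ) : ℝ) • 1 - p * c.pol X b) ≤ c.invE s σ a b := by
    rw [invE, Nat.shiftLeft_eq', Nat.shiftLeft_eq, Nat.cast_mul, Nat.cast_pow 2 σ, Nat.cast_ofNat]
    exact h2
  have h4 : (2 * c.invE s σ a b : ℝ) ≤ 2 ^ s := by
    exact_mod_cast (show 2 * c.invE s σ a b ≤ 2 ^ s from Nat.le_of_ble_eq_true hk)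
  have h5 : ν (c.pol X b) ≤ b.n := by simpa [T.setr] using (hb.enc (ν := ν)).le hc hν
  have h6 := map_add_le_add ν (q - c.pol X b) (c.pol X b)
  rw [sub_add_cancel] at h6
  have h7 := hν.mul_le (h6.trans (add_le_add_right h5 _)) h3
  rw [show q * (((2 ^ s : ℕ) : ℝ) • 1 - p * c.pol X b) = (2 : ℝ) ^ s • (q - c.pol X b) by
    rw [mul_sub, ← mul_assoc, mul_comm q p, hq]; simp [smul_sub], map_smul_eq_mul,
    Real.norm_of_nonneg hS.le] at h7
  refine hb.of_le (le_shr (2 * b.n * c.invE s σ a b) s ?_)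
  have h9 := mul_le_mul_of_nonneg_left h4 (apply_nonneg ν (q - c.pol X b))
  push_cast
  nlinarith

end Cfg

end Pool.Agent.MP_48470b_gt.TT
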