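import Pool.Agent.MP_48470b_gt.TT.Der

/-! Low coefficients, range bound and scaled statements in the tensor layout. -/

open Finset

namespace Pool.Agent.MP_48470b_gt.TT

open TM hiding T W Cfg hor ones bs hor_eq ones_eq bs_eq

namespace Cfg

variable {c : Cfg} {A : Type*} [CommRing A] [Algebra ℝ A] {X : Fin 3 → A} {ν : Seminorm ℝ A}
  {p q : A} {a b : T} {x y : W}

theorem cz_eq (hc : c.Ok) (h : c.WF a) {K t : ℕ} (hK : K ≤ c.N) (ht : t < K) :
    c.cz K a t = c.ldc (a.U - c.QH) t := by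
  obtain ⟨D, h⟩ := h
  have h1 : a.U = pk c.w c.N (c.de D) + c.QH := by rw [h]; exact mkT_U hc _ _
  have h2 : c.lo K a = pk c.w c.N (c.de D) % 2 ^ (c.w * K) := by
    have h3 := Hb_lt hc
    rw [lo, mK, land_m2, land_m2, land_m2, Nat.add_eq, Nat.mul_eq, ← Nat.add_mod, h1,
      show c.QH = c.Q - c.Hb from rfl, add_assoc, Nat.sub_add_cancel h3.le, Q_eq, Nat.add_mod,
      Nat.mod_eq_zero_of_dvd (pow_dvd_pow 2 (Nat.mul_le_mul_left _ hK)), add_zero, Nat.mod_mod]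
  rw [show c.cz K a t = Int.subNatNat (c.lo K a >>> (c.w * t) &&& (2 ^ c.w - 1)) (2 ^ (c.u - 1))
    from rfl, h2, Nat.and_two_pow_sub_one_eq_mod, Nat.shiftRight_eq_div_pow, ← dig, dig_mod ht,
    h1, Nat.add_sub_cancel, ldc_eq, de_pk' hc (fun s _ => de_lt D s) (ht.trans_le hK),
    dig_pk (fun s _ => (de_lt D s).trans hc.ult) (ht.trans_le hK), Int.subNatNat_eq_coe]
  simp

theorem cz_cn (K : ℕ) (a : T) (t : ℕ) : c.cz K a t = (c.cn K a t : ℤ) - 2 ^ (c.u - 1) := by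
  rw [cz, Int.subNatNat_eq_coe]
  simp [p2, u1]

theorem ca_eq (K : ℕ) (a : T) (t : ℕ) : (c.ca K a t : ℤ) = |c.cz K a t| := by
  rw [cz, Int.subNatNat_eq_coe, ca]
  simp only [Nat.add_eq, Nat.sub_eq]
  rcases le_total (c.cn K a t) (p2 c.u1) with h | h
  · rw [abs_of_nonpos (by omega)]; omega
  · rw [abs_of_nonneg (by omega)]; omega

/-- some coefficients explicit, the others bounded -/
theorem Enc.low (hc : c.Ok) (hν : Sem X ν) (h : c.Enc X ν p a) {K : ℕ} (hK : K ≤ c.N)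
    (s : Finset ℕ) (hs : ∀ t ∈ s, t < K) :
    ν (p - ∑ t ∈ s, (c.cz K a t : ℝ) • c.mono X t) ≤
      ((a.n + a.r - ∑ t ∈ s, |c.cz K a t| : ℤ) : ℝ) := by
  have h1 : c.l1 (c.ldc (a.U - c.QH)) ≤ a.n := by
    obtain ⟨D, h⟩ := h.1
    rw [h]
    exact le_trans (le_of_eq (sum_congr rfl fun t ht => by
      rw [ldc_mkT hc _ _ (mem_range.1 ht)])) (mkT_rep hc D a.r).2
  have h2 : s ⊆ range c.N := fun t ht => mem_range.2 ((hs t ht).trans_le hK)
  have h3 := h.2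
  rw [pol, ev_eq, ← sum_sdiff h2] at h3
  rw [l1, ← sum_sdiff h2] at h1
  have e1 : ∑ t ∈ s, (c.cz K a t : ℝ) • c.mono X t =
      ∑ t ∈ s, c.ldc (a.U - c.QH) t • c.mono X t := sum_congr rfl fun t ht => by
    rw [cz_eq hc h.1 hK (hs t ht), Int.cast_smul_eq_zsmul]
  have e2 : ∑ t ∈ s, |c.cz K a t| = ∑ t ∈ s, |c.ldc (a.U - c.QH) t| :=
    sum_congr rfl fun t ht => by rw [cz_eq hc h.1 hK (hs t ht)]
  rw [e1, e2]
  have h4 := TM.Cfg.nu_sum (range c.N \ s) (c.ldc (a.U - c.QH)) _ (nu_mono (c := c) hν)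
  have h5 := (map_add_le_add ν _ _).trans (add_le_add h3 h4)
  rw [show ∀ u v w : A, u - (v + w) + v = u - w from fun u v w => by ring] at h5
  refine h5.trans ?_
  rw [← Int.cast_natCast, ← Int.cast_add, Int.cast_le]
  linarith

theorem Enc.rad (hc : c.Ok) (hν : Sem X ν) (h : c.Enc X ν p a) :
    ν (p - ((c.c0 a : ℝ) - 2 ^ (c.u - 1)) • 1) ≤ c.rad a := by
  have h1 := h.low hc hν (K := 1) hc.N_pos {0} (by simp)
  rw [sum_singleton, sum_singleton, mono_zero, ← ca_eq, cz_cn] at h1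
  push_cast at h1
  refine h1.trans ?_
  have h2 : (a.n : ℤ) + a.r - c.ca 1 a 0 ≤ (a.n - c.ca 1 a 0 + a.r : ℕ) := by omega
  exact_mod_cast h2

/-- constant, linear and pure square terms -/
theorem Enc.low2 (hc : c.Ok) (hν : Sem X ν) (h : c.Enc X ν p a) :
    let z := c.cz (3 * c.S) a
    ν (p - ((z 0 : ℝ) • 1 + (z c.S : ℝ) • X 0 + (z c.B2 : ℝ) • X 1 + (z 1 : ℝ) • X 2 +
      (z (2 * c.S) : ℝ) • X 0 ^ 2 + (z (2 * c.B2) : ℝ) • X 1 ^ 2 + (z 2 : ℝ) • X 2 ^ 2)) ≤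
      ((a.n + a.r - (|z 0| + |z c.S| + |z c.B2| + |z 1| + |z (2 * c.S)| + |z (2 * c.B2)| +
        |z 2|) : ℤ) : ℝ) := by
  intro z
  have hB := hc.2.1.2.2
  have hS : 3 * c.B2 ≤ c.S := Nat.mul_le_mul_right _ hc.2.1.2.1
  have k1 : c.mono X (1 * c.S) = X 0 ^ 1 := mono_sh hc 0 (by omega)
  have k2 : c.mono X (1 * c.B2) = X 1 ^ 1 := mono_sh hc 1 (by omega)
  have k3 : c.mono X 1 = X 2 ^ 1 := mono_sh hc 2 (m := 1) (by omega)
  have k4 : c.mono X (2 * c.S) = X 0 ^ 2 := mono_sh hc 0 (by omega)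
  have k5 : c.mono X (2 * c.B2) = X 1 ^ 2 := mono_sh hc 1 (by omega)
  have k6 : c.mono X 2 = X 2 ^ 2 := mono_sh hc 2 (m := 2) (by omega)
  rw [one_mul, pow_one] at k1 k2
  rw [pow_one] at k3
  have h1 := h.low hc hν (K := 3 * c.S) (Nat.mul_le_mul_right _ hc.2.1.1)
    {0, c.S, c.B2, 1, 2 * c.S, 2 * c.B2, 2} (by
      simp only [mem_insert, mem_singleton, forall_eq_or_imp, forall_eq]
      omega)
  iterate 12 rw [sum_insert (by simp only [mem_insert, mem_singleton]; omega)] at h1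
  simpa only [sum_singleton, mono_zero, ← add_assoc, k1, k2, k3, k4, k5, k6] using h1

/-! ### scaled statements -/

variable (c X ν) in
/-- `a` encloses `2 ^ s * p` -/
def ET (s : ℕ) (p : A) (a : T) : Prop := c.Enc X ν ((2 : ℝ) ^ s • p) a

variable (c X ν) in
/-- the same without reference to `u` -/
def EN (s : ℕ) (p : A) (a : T) : Prop := c.Nar X ν ((2 : ℝ) ^ s • p) a

variable (c X ν) in
/-- `x` encloses `2 ^ s * p` -/
def EW (s : ℕ) (p : A) (x : W) : Prop := c.EncW X ν ((2 : ℝ) ^ s • p) x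

variable {s t : ℕ}

theorem ET.en (hc : c.Ok) (h : c.ET X ν s p a) : c.EN X ν s p a := Enc.nar hc h

theorem EN.mul (H : c.Sg X ν) (ha : c.EN X ν s p a) (hb : c.EN X ν t q b) :
    c.EW X ν (s + t) (p * q) (c.mul a b) := by
  have := Nar.mul H ha hb
  rwa [smul_mul_smul_comm, ← pow_add] at this

theorem EN.sqr (H : c.Sg X ν) (ha : c.EN X ν s p a) : c.EW X ν (s + s) (p * p) (c.sqr a) :=
  sqr_eq a ▸ ha.mul H ha

theorem ET.mul (H : c.Sg X ν) (ha : c.ET X ν s p a) (hb : c.ET X ν t q b) :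
    c.EW X ν (s + t) (p * q) (c.mul a b) := (ha.en H.ok).mul H (hb.en H.ok)

theorem EW.rnd (H : c.Sg X ν) (σ : ℕ) (h : c.EW X ν (σ + s) p x) :
    c.ET X ν s p (c.rnd σ x) := EncW.rnd H σ (by rwa [smul_smul, ← pow_add])

theorem EN.lift (h : c.EN X ν s p a) : c.EW X ν s p a.lift := Nar.lift h

theorem ET.lift (hc : c.Ok) (h : c.ET X ν s p a) : c.EW X ν s p a.lift := Enc.lift hc h

theorem EW.add (hx : c.EW X ν s p x) (hy : c.EW X ν s q y) : c.EW X ν s (p + q) (x.add y) := by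
  rw [EW, smul_add]; exact EncW.add hx hy

theorem EW.sub (hx : c.EW X ν s p x) (hy : c.EW X ν s q y) :
    c.EW X ν s (p - q) (c.sub x y) := by
  rw [EW, smul_sub]; exact EncW.sub hx hy

theorem EW.neg (hx : c.EW X ν s p x) : c.EW X ν s (-p) (c.neg x) := by
  rw [EW, smul_neg]; exact EncW.neg hx

theorem EW.smul (hx : c.EW X ν s p x) (k : ℕ) : c.EW X ν s ((k : A) * p) (x.smul k) := by
  rw [EW, ← nsmul_eq_mul, ← Nat.cast_smul_eq_nsmul ℝ, smul_comm]; exact EncW.smul hx k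

theorem EW.zs (hx : c.EW X ν s p x) (k : ℤ) : c.EW X ν s ((k : ℝ) • p) (c.zmul k x) := by
  rw [EW, smul_comm]; exact EncW.zmul hx k

theorem EW.zmul (hx : c.EW X ν s p x) (k : ℤ) : c.EW X ν s ((k : A) * p) (c.zmul k x) := by
  rw [← zsmul_eq_mul, ← Int.cast_smul_eq_zsmul ℝ]; exact hx.zs k

theorem EW.shl (hx : c.EW X ν s p x) (k : ℕ) : c.EW X ν (k + s) p (x.shl k) := by
  rw [EW, pow_add, mul_smul]; exact EncW.shl hx k

theorem EW.setU (h : c.EW X ν s p x) {U : ℕ} (hU : U ≡ x.U [MOD c.Q]) :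
    c.EW X ν s p (x.setU U) := EncW.setU h hU

/-- reading the scale as a factor -/
theorem EW.half (k : ℕ) (hx : c.EW X ν s p x) :
    c.EW X ν (s + k) (((2 : ℝ) ^ k)⁻¹ • p) x := by
  rwa [EW, pow_add, mul_smul, smul_inv_smul₀ (by positivity)]

theorem EW.nat (hc : c.Ok) (s k : ℕ) : c.EW X ν s (k : A) (W.const (k <<< s)) := by
  have := const (X := X) (ν := ν) hc (k <<< s)
  rw [EW, ← mul_one (k : A), ← nsmul_eq_mul, ← Nat.cast_smul_eq_nsmul ℝ, smul_smul]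
  simpa [Nat.shiftLeft_eq, mul_comm] using this

theorem EW.addr (hx : c.EW X ν s p x) {e : ℕ} (he : 2 ^ s * ν (q - p) ≤ e) :
    c.EW X ν s q (x.addr e) := EncW.addr hx (by
  rwa [← smul_sub, map_smul_eq_mul, Real.norm_of_nonneg (by positivity)])

theorem ET.der (hc : c.Ok) {ν' : Seminorm ℝ A} (i : Fin 3) (δ : Derivation ℝ A A)
    (hδ : ∀ j, δ (X j) = if j = i then 1 else 0) {L : ℕ} (hL : ∀ e, ν (δ e) ≤ L * ν' e)
    (h : c.ET X ν' s p a) : c.EW X ν s (δ p) (c.der i L a) := by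
  rw [EW, ← Derivation.map_smul]; exact Enc.der hc i δ hδ hL h

theorem EN.inv (H : c.Sg X ν) {σ : ℕ} (ha : c.EN X ν s p a) (hb : c.WF b)
    (hq : p * q = 1) (hk : c.invOk (s + t) σ a b = true) :
    c.ET X ν t q (c.inv (s + t) σ a b) :=
  Nar.inv H ha hb (by rw [smul_mul_smul_comm, ← pow_add, hq]) hk

theorem EW.le (hν : Sem X ν) (h : c.EW X ν s p x) : 2 ^ s * ν p ≤ (x.n + x.r : ℕ) := by
  have := EncW.le hν h
  rwa [map_smul_eq_mul, Real.norm_of_nonneg (by positivity)] at this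

theorem EN.le (hν : Sem X ν) (h : c.EN X ν s p a) : 2 ^ s * ν p ≤ (a.n + a.r : ℕ) :=
  h.lift.le hν

theorem ET.le (hc : c.Ok) (hν : Sem X ν) (h : c.ET X ν s p a) :
    2 ^ s * ν p ≤ (a.n + a.r : ℕ) := (h.en hc).le hν

end Cfg

end Pool.Agent.MP_48470b_gt.TT
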