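import Pool.Agent.MP_48470b_gt.TT.Defs
import Pool.Agent.MP_48470b_gt.TM.Mul2

/-! Slot arithmetic and the truncated product in the tensor layout. -/

open Finset

namespace Pool.Agent.MP_48470b_gt.TT

open TM (pk dig Sem sum_range_mul' tail_eq)

namespace Cfg

variable {c : Cfg}

theorem S_eq : c.S = c.B1 * c.B2 := rfl
theorem N_eq : c.N = c.B0 * c.S := rfl
theorem Q_eq : c.Q = 2 ^ (c.w * c.N) := rfl
theorem ex0 (t : ℕ) : c.ex 0 t = t / c.S % c.B0 := rfl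
theorem ex1 (t : ℕ) : c.ex 1 t = t / c.B2 % c.B1 := rfl
theorem ex2 (t : ℕ) : c.ex 2 t = t % c.B2 := congrArg (· % c.B2) (Nat.div_one t)

theorem Ok.B_ge (hc : c.Ok) (i : Fin 3) : 3 ≤ c.B i := by
  fin_cases i
  exacts [hc.2.1.1, hc.2.1.2.1, hc.2.1.2.2]

theorem Ok.B_le (hc : c.Ok) (i : Fin 3) : c.B i ≤ 2 ^ c.l := by
  fin_cases i
  exacts [hc.2.2.1.1, hc.2.2.1.2.1, hc.2.2.1.2.2]

theorem Ok.ex_lt (hc : c.Ok) (i : Fin 3) (t : ℕ) : c.ex i t < c.B i :=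
  Nat.mod_lt _ (by have := hc.B_ge i; omega)

theorem comp {i j k : ℕ} (hi : i < c.B0) (hj : j < c.B1) (hk : k < c.B2) :
    c.ex 0 (i * c.S + j * c.B2 + k) = i ∧ c.ex 1 (i * c.S + j * c.B2 + k) = j ∧
      c.ex 2 (i * c.S + j * c.B2 + k) = k ∧ i * c.S + j * c.B2 + k < c.N := by
  have e : i * c.S + j * c.B2 + k = k + c.B2 * (j + c.B1 * i) := by rw [S_eq]; ring
  have h1 : (k + c.B2 * (j + c.B1 * i)) / c.B2 = j + c.B1 * i := by
    rw [Nat.add_mul_div_left _ _ (by omega), Nat.div_eq_of_lt hk, zero_add]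
  have h2 : (k + c.B2 * (j + c.B1 * i)) / c.S = i := by
    rw [S_eq, mul_comm c.B1 c.B2, ← Nat.div_div_eq_div_mul, h1, Nat.add_mul_div_left _ _ (by omega),
      Nat.div_eq_of_lt hj, zero_add]
  rw [e]
  refine ⟨?_, ?_, ?_, ?_⟩
  · rw [ex0, h2, Nat.mod_eq_of_lt hi]
  · rw [ex1, h1, Nat.add_mul_mod_self_left, Nat.mod_eq_of_lt hj]
  · rw [ex2, Nat.add_mul_mod_self_left, Nat.mod_eq_of_lt hk]
  · rw [N_eq, ← Nat.div_lt_iff_lt_mul (show 0 < c.S from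
      Nat.mul_pos (Nat.zero_lt_of_lt hj) (Nat.zero_lt_of_lt hk)), h2]
    exact hi

theorem dec {t : ℕ} (ht : t < c.N) : t = c.ex 0 t * c.S + c.ex 1 t * c.B2 + c.ex 2 t := by
  have h1 := Nat.div_add_mod t c.B2
  have h2 := Nat.div_add_mod (t / c.B2) c.B1
  rw [ex0, ex1, ex2, Nat.mod_eq_of_lt (Nat.div_lt_of_lt_mul (by rwa [mul_comm])), S_eq,
    mul_comm c.B1, ← Nat.div_div_eq_div_mul]
  calc t = c.B2 * (c.B1 * (t / c.B2 / c.B1) + t / c.B2 % c.B1) + t % c.B2 := by rw [h2, h1]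
    _ = _ := by ring

theorem sum3 {M : Type*} [AddCommMonoid M] (φ : ℕ → M) : ∑ t ∈ range c.N, φ t =
    ∑ i ∈ range c.B0, ∑ j ∈ range c.B1, ∑ k ∈ range c.B2, φ (i * c.S + j * c.B2 + k) := by
  rw [N_eq, sum_range_mul']
  refine sum_congr rfl fun i _ => ?_
  conv_lhs => rw [S_eq, sum_range_mul']
  simp only [add_assoc, S_eq]

theorem enc_add (f g : ℕ → ℤ) : c.enc (f + g) = c.enc f + c.enc g := by
  simp only [enc, Pi.add_apply, add_mul, sum_add_distrib]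

theorem enc_neg (f : ℕ → ℤ) : c.enc (-f) = -c.enc f := by
  simp only [enc, Pi.neg_apply, neg_mul, sum_neg_distrib]

theorem enc_smul (k : ℤ) (f : ℕ → ℤ) : c.enc (k • f) = c.enc f * k := by
  simp only [enc, Pi.smul_apply, smul_eq_mul, sum_mul]
  exact sum_congr rfl fun t _ => by ring

theorem l1_nonneg (f : ℕ → ℤ) : 0 ≤ c.l1 f := sum_nonneg fun _ _ => abs_nonneg _

theorem abs_le_l1 (f : ℕ → ℤ) {t : ℕ} (ht : t < c.N) : |f t| ≤ c.l1 f :=
  single_le_sum (f := fun t => |f t|) (fun _ _ => abs_nonneg _) (mem_range.2 ht)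

/-- product of coefficient families -/
def conv (c : Cfg) (f g : ℕ → ℤ) (t : ℕ) : ℤ :=
  ∑ p ∈ (range c.N ×ˢ range c.N).filter (fun p => p.1 + p.2 < c.N) with p.1 + p.2 = t,
    f p.1 * g p.2

theorem sum_conv {M : Type*} [AddCommGroup M] (f g : ℕ → ℤ) (φ : ℕ → M) :
    ∑ t ∈ range c.N, c.conv f g t • φ t =
      ∑ p ∈ (range c.N ×ˢ range c.N).filter (fun p => p.1 + p.2 < c.N),
        (f p.1 * g p.2) • φ (p.1 + p.2) := by
  rw [← sum_fiberwise_of_maps_to (t := range c.N) (g := fun p : ℕ × ℕ => p.1 + p.2)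
    (fun p hp => mem_range.2 (mem_filter.1 hp).2)]
  refine sum_congr rfl fun t _ => ?_
  rw [conv, sum_smul]
  exact sum_congr rfl fun p hp => by rw [(mem_filter.1 hp).2]

theorem enc_conv (f g : ℕ → ℤ) : c.enc f * c.enc g ≡ c.enc (c.conv f g) [ZMOD c.Q] := by
  have h := sum_conv (c := c) f g fun t => (2 : ℤ) ^ (c.w * t)
  simp only [smul_eq_mul] at h
  rw [enc, enc, enc, h, sum_mul_sum, ← sum_product',
    ← sum_filter_add_sum_filter_not _ (fun p : ℕ × ℕ => p.1 + p.2 < c.N)]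
  refine Int.ModEq.symm (Int.modEq_iff_dvd.2 ?_)
  rw [sum_congr rfl (g := fun p : ℕ × ℕ => f p.1 * g p.2 * 2 ^ (c.w * (p.1 + p.2)))
    fun p _ => by ring, add_sub_cancel_left]
  refine dvd_sum fun p hp => ?_
  have h1 := (mem_filter.1 hp).2
  rw [show f p.1 * 2 ^ (c.w * p.1) * (g p.2 * 2 ^ (c.w * p.2)) =
    f p.1 * g p.2 * 2 ^ (c.w * (p.1 + p.2)) by ring, Q_eq]
  push_cast
  exact Dvd.dvd.mul_left (pow_dvd_pow _ (Nat.mul_le_mul_left _ (by omega))) _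

theorem l1_conv (f g : ℕ → ℤ) : c.l1 (c.conv f g) ≤ c.l1 f * c.l1 g := by
  have h := sum_conv (c := c) (fun t => |f t|) (fun t => |g t|) fun _ => (1 : ℤ)
  simp only [smul_eq_mul, mul_one] at h
  calc c.l1 (c.conv f g) ≤ ∑ t ∈ range c.N, c.conv (fun t => |f t|) (fun t => |g t|) t :=
        sum_le_sum fun t _ => (abs_sum_le_sum_abs _ _).trans
          (le_of_eq (sum_congr rfl fun p _ => abs_mul _ _))
    _ ≤ _ := by
        rw [h, l1, l1, sum_mul_sum, ← sum_product']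
        exact sum_le_sum_of_subset_of_nonneg (filter_subset _ _) fun p _ _ => by positivity

theorem nm_nonneg (i : Fin 3) (f : ℕ → ℤ) (m : ℕ) : 0 ≤ c.nm i f m :=
  sum_nonneg fun _ _ => abs_nonneg _

theorem l1_eq (hc : c.Ok) (i : Fin 3) (f : ℕ → ℤ) :
    c.l1 f = ∑ p ∈ range (c.B i), c.nm i f p :=
  (sum_fiberwise_of_maps_to (fun t _ => mem_range.2 (hc.ex_lt i t)) _).symm

theorem Nb.l1_le (hc : c.Ok) {i : Fin 3} {f : ℕ → ℤ} {x n : ℕ} (h : c.Nb i x n f) :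
    c.l1 f ≤ n := by
  obtain ⟨b, -, h1, h2⟩ := h
  rw [l1_eq hc i, ← h2]
  push_cast
  exact sum_le_sum fun m hm => h1 m (mem_range.1 hm)

theorem tl_le (hc : c.Ok) (i : Fin 3) {f g : ℕ → ℤ} {x y n n' : ℕ} (hx : c.Nb i x n f)
    (hy : c.Nb i y n' g) (hn : n * n' < 2 ^ c.w - 1) :
    ∑ s ∈ range c.N, ∑ t ∈ range c.N,
      (if c.B i ≤ c.ex i s + c.ex i t then |f s| * |g t| else 0) ≤
      c.tl (c.vv i * c.B i) x y := by
  obtain ⟨a, rfl, h1, h2⟩ := hx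
  obtain ⟨b, rfl, k1, k2⟩ := hy
  obtain ⟨m, hm, e⟩ : ∃ m, 0 < m ∧ c.vv i = c.w * m := by
    have := hc.2.1.2.2
    fin_cases i
    exacts [⟨1, one_pos, (mul_one _).symm⟩, ⟨c.B2, by omega, rfl⟩, ⟨1, one_pos, (mul_one _).symm⟩]
  have t0 : 2 ^ c.w ≤ 2 ^ c.vv i := Nat.pow_le_pow_right two_pos (e ▸ Nat.le_mul_of_pos_right _ hm)
  have t1 : (∑ m ∈ range (c.B i), a m) * ∑ m ∈ range (c.B i), b m < 2 ^ c.w - 1 := by
    rwa [h2, k2]
  have t2 : 2 ^ c.w - 1 ∣ 2 ^ c.vv i - 1 := by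
    rw [e, pow_mul]
    exact Nat.sub_one_dvd_pow_sub_one _ _
  rw [show ∀ W x y, c.tl W x y = (x * y) >>> W % (2 ^ c.w - 1) from fun _ _ _ => rfl,
    Nat.shiftRight_eq_div_pow, ← Nat.mod_mod_of_dvd _ t2, tail_eq (by omega),
    Nat.mod_eq_of_lt (lt_of_le_of_lt (by
      rw [sum_mul_sum, ← sum_product']
      exact sum_le_sum_of_subset (filter_subset _ _)) t1), sum_filter, sum_product,
    ← sum_fiberwise_of_maps_to (fun t _ => mem_range.2 (hc.ex_lt i t))]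
  push_cast
  refine sum_le_sum fun p hp => ?_
  rw [sum_comm, ← sum_fiberwise_of_maps_to (fun t _ => mem_range.2 (hc.ex_lt i t))]
  refine sum_le_sum fun q hq => ?_
  rw [sum_congr rfl fun t ht => sum_congr rfl fun s hs => by
    rw [(mem_filter.1 ht).2, (mem_filter.1 hs).2]]
  split_ifs
  · rw [sum_comm, ← sum_mul_sum]
    exact mul_le_mul (h1 p (mem_range.1 hp)) (k1 q (mem_range.1 hq)) (nm_nonneg i g q)
      (Int.natCast_nonneg _)
  · simp

variable {A : Type*} [CommRing A] [Algebra ℝ A] {X : Fin 3 → A} {ν : Seminorm ℝ A}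

theorem ev_eq (f : ℕ → ℤ) : c.ev X f = ∑ t ∈ range c.N, f t • c.mono X t := by
  simp only [ev, Int.cast_smul_eq_zsmul]

theorem ev_add (f g : ℕ → ℤ) : c.ev X (f + g) = c.ev X f + c.ev X g := by
  simp only [ev_eq, Pi.add_apply, add_smul, sum_add_distrib]

theorem ev_neg (f : ℕ → ℤ) : c.ev X (-f) = -c.ev X f := by
  simp only [ev_eq, Pi.neg_apply, neg_smul, sum_neg_distrib]

theorem ev_sub (f g : ℕ → ℤ) : c.ev X (f - g) = c.ev X f - c.ev X g := by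
  simp only [ev_eq, Pi.sub_apply, sub_smul, sum_sub_distrib]

theorem ev_smul (k : ℤ) (f : ℕ → ℤ) : c.ev X (k • f) = (k : ℝ) • c.ev X f := by
  simp only [ev, Pi.smul_apply, smul_eq_mul, smul_sum, Int.cast_mul, mul_smul]

theorem ev_congr {f g : ℕ → ℤ} (h : ∀ t < c.N, f t = g t) : c.ev X f = c.ev X g :=
  sum_congr rfl fun t ht => by rw [h t (mem_range.1 ht)]

theorem map_ev {A' : Type*} [CommRing A'] [Algebra ℝ A'] (φ : A →ₐ[ℝ] A') (f : ℕ → ℤ) :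
    φ (c.ev X f) = c.ev (fun i => φ (X i)) f := by
  simp only [ev, mono, map_sum, map_smul, map_mul, map_pow]

theorem nu_mono (h : Sem X ν) (t : ℕ) : ν (c.mono X t) ≤ 1 := by
  simpa [mono] using h.mul_le (h.mul_le (h.pow_le 0 _) (h.pow_le 1 _)) (h.pow_le 2 _)

theorem nu_ev (h : Sem X ν) (f : ℕ → ℤ) : ν (c.ev X f) ≤ c.l1 f := by
  rw [ev_eq]
  exact TM.Cfg.nu_sum _ _ _ (nu_mono h)

theorem nu_wsum {ι : Type*} (s : Finset ι) (f : ι → ℤ) (y : ι → A) :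
    ν (∑ i ∈ s, f i • y i) ≤ ∑ i ∈ s, |(f i : ℝ)| * ν (y i) := by
  refine (le_sum_of_subadditive ν (map_zero ν).le (map_add_le_add ν) s _).trans
    (sum_le_sum fun i _ => ?_)
  rw [← Int.cast_smul_eq_zsmul ℝ, map_smul_eq_mul, Real.norm_eq_abs]

/-- the bound of the variables -/
noncomputable def γ (c : Cfg) : ℝ := c.gp / c.gq

theorem γ_nonneg : 0 ≤ c.γ := by unfold γ; positivity

theorem Ok.γ_le (hc : c.Ok) : c.γ ≤ 1 :=
  div_le_one_of_le₀ (Nat.cast_le.2 hc.2.2.2.2.2.2) (Nat.cast_nonneg _)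

theorem Sg.le_γ (H : c.Sg X ν) (i : Fin 3) : ν (X i) ≤ c.γ :=
  (le_div_iff₀ (Nat.cast_pos.2 H.ok.2.2.2.2.2.1)).2 (H.le i)

theorem Sg.mono_le (H : c.Sg X ν) (t : ℕ) :
    ν (c.mono X t) ≤ c.γ ^ c.ex 0 t * c.γ ^ c.ex 1 t * c.γ ^ c.ex 2 t := by
  have h1 : ∀ i k, ν (X i ^ k) ≤ c.γ ^ k := fun i k => by
    induction k with
    | zero => simpa using H.sem.one
    | succ k ih => simpa [pow_succ] using H.sem.mul_le ih (H.le_γ i)
  exact H.sem.mul_le (H.sem.mul_le (h1 0 _) (h1 1 _)) (h1 2 _)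

theorem Sg.pair (H : c.Sg X ν) {s t : ℕ} (hs : s < c.N) (ht : t < c.N) :
    ν (c.mono X s * c.mono X t - if s + t < c.N then c.mono X (s + t) else 0) ≤
      (if c.B 0 ≤ c.ex 0 s + c.ex 0 t then c.γ ^ c.B0 else 0) +
      (if c.B 1 ≤ c.ex 1 s + c.ex 1 t then c.γ ^ c.B1 + 1 else 0) +
      (if c.B 2 ≤ c.ex 2 s + c.ex 2 t then c.γ ^ c.B2 + 1 else 0) := by
  have g0 := γ_nonneg (c := c)
  have h1 : ∀ n ≤ c.ex 0 s + c.ex 0 t + (c.ex 1 s + c.ex 1 t) + (c.ex 2 s + c.ex 2 t),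
      ν (c.mono X s * c.mono X t) ≤ c.γ ^ n := fun n hn =>
    (H.sem.mul_le (H.mono_le s) (H.mono_le t)).trans
      (le_trans (le_of_eq (by ring)) (pow_le_pow_of_le_one g0 H.ok.γ_le hn))
  have h2 : ∀ n ≤ c.ex 0 s + c.ex 0 t + (c.ex 1 s + c.ex 1 t) + (c.ex 2 s + c.ex 2 t),
      ν (c.mono X s * c.mono X t - if s + t < c.N then c.mono X (s + t) else 0) ≤
        c.γ ^ n + 1 := fun n hn => by
    refine (map_sub_le_add ν _ _).trans (add_le_add (h1 n hn) ?_)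
    split_ifs
    · exact nu_mono H.sem _
    · simp
  have e : s + t = (c.ex 0 s + c.ex 0 t) * c.S + (c.ex 1 s + c.ex 1 t) * c.B2 +
      (c.ex 2 s + c.ex 2 t) := by
    conv_lhs => rw [dec hs, dec ht]
    ring
  rw [show c.B 0 = c.B0 from rfl, show c.B 1 = c.B1 from rfl, show c.B 2 = c.B2 from rfl]
  by_cases k1 : c.B1 ≤ c.ex 1 s + c.ex 1 t
  · rw [if_pos k1]
    refine (h2 c.B1 (by omega)).trans ?_
    rw [add_right_comm]
    exact le_add_of_nonneg_left (by positivity)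
  · by_cases k2 : c.B2 ≤ c.ex 2 s + c.ex 2 t
    · rw [if_pos k2]
      exact (h2 c.B2 (by omega)).trans (le_add_of_nonneg_left (by positivity))
    · rw [if_neg k1, if_neg k2, add_zero, add_zero]
      by_cases k0 : c.B0 ≤ c.ex 0 s + c.ex 0 t
      · have := Nat.mul_le_mul_right c.S k0
        rw [if_pos k0, if_neg (by rw [N_eq]; omega), sub_zero]
        exact h1 _ (by omega)
      · obtain ⟨e0, e1, e2, e3⟩ := comp (not_le.1 k0) (not_le.1 k1) (not_le.1 k2)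
        rw [← e] at e0 e1 e2 e3
        rw [if_neg k0, if_pos e3, show c.mono X (s + t) = c.mono X s * c.mono X t by
          rw [mono, e0, e1, e2, mono, mono]; ring, sub_self, map_zero]

theorem gw_ge (hc : c.Ok) (n : ℕ) : c.γ ^ n * 65536 ≤ c.gw n := by
  have hq : (0 : ℝ) < c.gq := Nat.cast_pos.2 hc.2.2.2.2.2.1
  induction n with
  | zero => simp [gw]
  | succ n ih =>
    have h1 : ((c.gw n * c.gp : ℕ) : ℝ) ≤ (c.gq * (c.gw n * c.gp / c.gq + 1) : ℕ) :=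
      Nat.cast_le.2 (Nat.lt_mul_div_succ _ hc.2.2.2.2.2.1).le
    rw [show c.gw (n + 1) = c.gw n * c.gp / c.gq + 1 from rfl, pow_succ, mul_right_comm]
    refine (mul_le_mul_of_nonneg_right ih γ_nonneg).trans ?_
    rw [γ, ← mul_div_assoc, div_le_iff₀ hq, mul_comm _ (c.gq : ℝ)]
    exact_mod_cast h1

theorem gs_ge (hc : c.Ok) (n : ℕ) : (∑ i ∈ range n, c.γ ^ i) * 65536 ≤ c.gs n := by
  have hq : (0 : ℝ) < c.gq := Nat.cast_pos.2 hc.2.2.2.2.2.1
  induction n with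
  | zero => simp [gs]
  | succ n ih =>
    have h1 : ((c.gs n * c.gp : ℕ) : ℝ) ≤ (c.gq * (c.gs n * c.gp / c.gq + 1) : ℕ) :=
      Nat.cast_le.2 (Nat.lt_mul_div_succ _ hc.2.2.2.2.2.1).le
    have h2 : (c.gs n : ℝ) * c.γ ≤ (c.gs n * c.gp / c.gq + 1 : ℕ) := by
      rw [γ, ← mul_div_assoc, div_le_iff₀ hq, mul_comm _ (c.gq : ℝ)]
      exact_mod_cast h1
    have h3 := mul_le_mul_of_nonneg_right ih (γ_nonneg (c := c))
    rw [show c.gs (n + 1) = c.gs n * c.gp / c.gq + 65537 from rfl, geom_sum_succ]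
    push_cast at h2 ⊢
    linarith

theorem le_shr (z k : ℕ) {x : ℝ} (h : x * 2 ^ k ≤ z) : x ≤ (z >>> k + 1 : ℕ) := by
  have h1 : (z : ℝ) ≤ (2 ^ k * (z >>> k + 1) : ℕ) := by
    rw [Nat.shiftRight_eq_div_pow]
    exact_mod_cast (Nat.lt_mul_div_succ _ (by positivity)).le
  rw [Nat.cast_mul, Nat.cast_pow, Nat.cast_ofNat, mul_comm] at h1
  exact le_of_mul_le_mul_right (h.trans h1) (by positivity)

theorem Sg.cnt_ge (H : c.Sg X ν) : ∑ t ∈ range c.N, ν (c.mono X t) ≤ c.cnt := by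
  refine (sum_le_sum fun t _ => H.mono_le t).trans (le_shr _ 48 ?_)
  rw [sum3, sum_congr rfl fun i hi => sum_congr rfl fun j hj => sum_congr rfl fun k hk => by
    obtain ⟨e0, e1, e2, -⟩ := comp (mem_range.1 hi) (mem_range.1 hj) (mem_range.1 hk)
    rw [e0, e1, e2]]
  simp only [← mul_sum, ← sum_mul]
  have g0 := γ_nonneg (c := c)
  have h := mul_le_mul (mul_le_mul (gs_ge H.ok c.B0) (gs_ge H.ok c.B1) (by positivity)
    (by positivity)) (gs_ge H.ok c.B2) (by positivity) (by positivity)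
  simp only [Nat.mul_eq, Nat.cast_mul]
  refine le_trans (le_of_eq ?_) h
  ring

theorem Sg.conv (H : c.Sg X ν) {f g : ℕ → ℤ} {a b : T} (a0 : c.Nb 0 a.n0 a.n f)
    (a1 : c.Nb 1 a.n1 a.n f) (a2 : c.Nb 2 a.n2 a.n f) (b0 : c.Nb 0 b.n0 b.n g)
    (b1 : c.Nb 1 b.n1 b.n g) (b2 : c.Nb 2 b.n2 b.n g) :
    ν (c.ev X f * c.ev X g - c.ev X (c.conv f g)) ≤ c.tt a b := by
  unfold tt
  cases hab : Nat.blt (Nat.mul a.n b.n) c.mw
  · have h1 := a0.l1_le H.ok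
    have h2 := b0.l1_le H.ok
    have h3 : c.l1 (c.conv f g) ≤ a.n * b.n := (l1_conv f g).trans
      (mul_le_mul h1 h2 (l1_nonneg g) (Int.natCast_nonneg _))
    have n1 : ν (c.ev X f) ≤ a.n := (nu_ev H.sem f).trans (by exact_mod_cast h1)
    have n2 : ν (c.ev X g) ≤ b.n := (nu_ev H.sem g).trans (by exact_mod_cast h2)
    have n3 : ν (c.ev X (c.conv f g)) ≤ a.n * b.n := (nu_ev H.sem _).trans (by exact_mod_cast h3)
    refine (map_sub_le_add ν _ _).trans ((add_le_add (H.sem.mul_le n1 n2) n3).trans (le_of_eq ?_))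
    simp only [cond_false, Nat.mul_eq]
    push_cast
    ring
  have hab : a.n * b.n < 2 ^ c.w - 1 := Nat.blt_eq ▸ hab
  change _ ≤ (((c.tl (c.vv 0 * c.B 0) a.n0 b.n0 * c.g0 + c.tl c.wS a.n1 b.n1 * c.g1 +
    c.tl (c.vv 2 * c.B 2) a.n2 b.n2 * c.g2) >>> 16 + 1 : ℕ) : ℝ)
  rw [show c.wS = c.vv 1 * c.B 1 from show c.w * (c.B1 * c.B2) = c.w * c.B2 * c.B1 by ring]
  have e : c.ev X f * c.ev X g - c.ev X (c.conv f g) = ∑ p ∈ range c.N ×ˢ range c.N,
      (f p.1 * g p.2) • (c.mono X p.1 * c.mono X p.2 -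
        if p.1 + p.2 < c.N then c.mono X (p.1 + p.2) else 0) := by
    rw [ev_eq, ev_eq, ev_eq, sum_conv, sum_mul_sum, ← sum_product', sum_filter, ← sum_sub_distrib]
    refine sum_congr rfl fun p _ => ?_
    rw [smul_sub, smul_mul_smul_comm, smul_ite, smul_zero]
  have k : ∀ (i : Fin 3) {x y : ℕ} (β : ℝ) (G : ℕ), c.Nb i x a.n f → c.Nb i y b.n g → 0 ≤ β →
      β * 65536 ≤ G → (∑ p ∈ range c.N ×ˢ range c.N, |((f p.1 * g p.2 : ℤ) : ℝ)| *
        if c.B i ≤ c.ex i p.1 + c.ex i p.2 then β else 0) * 2 ^ 16 ≤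
        c.tl (c.vv i * c.B i) x y * G := by
    intro i x y β G hx hy h0 hG
    have h1 : ((∑ s ∈ range c.N, ∑ t ∈ range c.N, (if c.B i ≤ c.ex i s + c.ex i t then
        |f s| * |g t| else 0) : ℤ) : ℝ) ≤ c.tl (c.vv i * c.B i) x y := by
      exact_mod_cast tl_le H.ok i hx hy hab
    refine le_trans (le_of_eq ?_) (mul_le_mul h1 hG (by positivity) (Nat.cast_nonneg _))
    rw [← mul_assoc, sum_product]
    push_cast
    simp only [sum_mul, abs_mul, mul_ite, ite_mul, mul_zero, zero_mul]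
    norm_num
  have g0 := γ_nonneg (c := c)
  have k0 := k 0 _ c.g0 a0 b0 (pow_nonneg g0 c.B0) (gw_ge H.ok _)
  have k1 := k 1 (c.γ ^ c.B1 + 1) c.g1 a1 b1 (by positivity) (by
    have := gw_ge H.ok c.B1
    rw [show c.g1 = c.gw c.B1 + 65536 from rfl]; push_cast; linarith)
  have k2 := k 2 (c.γ ^ c.B2 + 1) c.g2 a2 b2 (by positivity) (by
    have := gw_ge H.ok c.B2
    rw [show c.g2 = c.gw c.B2 + 65536 from rfl]; push_cast; linarith)
  rw [e]
  refine le_shr _ 16 (le_trans (mul_le_mul_of_nonneg_right ((nu_wsum _ _ _).trans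
    (sum_le_sum fun p hp => mul_le_mul_of_nonneg_left (H.pair (mem_range.1 (mem_product.1 hp).1)
      (mem_range.1 (mem_product.1 hp).2)) (abs_nonneg _))) (by positivity)) ?_)
  simp only [mul_add, sum_add_distrib, add_mul, Nat.cast_add, Nat.cast_mul]
  exact add_le_add (add_le_add k0 k1) k2

end Cfg

end Pool.Agent.MP_48470b_gt.TT
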