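/-! Taylor models in the tensor layout: executable definitions.

Slot `t = i * S + j * B2 + k` (`S = B1 * B2`, width `w` bits, `i < B0`, `j < B1`, `k < B2`) holds
the coefficient of `X 0 ^ i * X 1 ^ j * X 2 ^ k`. -/

namespace Pool.Agent.MP_48470b_gt.TT

/-- `2 ^ k` -/
def p2 (k : Nat) : Nat := Nat.pow 2 k
/-- `2 ^ k - 1` -/
def m2 (k : Nat) : Nat := Nat.sub (Nat.pow 2 k) 1
/-- all digits equal to one -/
def ones (w n : Nat) : Nat := Nat.div (m2 (Nat.mul w n)) (m2 w)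
/-- the number with digits `f` -/
def hor (W n : Nat) (f : Nat → Nat) : Nat :=
  Nat.rec 0 (fun i acc => Nat.add acc (Nat.shiftLeft (f i) (Nat.mul W i))) n
/-- a sum as a loop -/
def sm (n : Nat) (f : Nat → Nat) : Nat := Nat.rec 0 (fun i acc => Nat.add acc (f i)) n
def shf (W k : Nat) : Nat := Nat.mul W (Nat.pow 2 k)
def msk (W k : Nat) : Nat := m2 (shf W k)

/-- sums of the digits of the blocks of width `W`, packed with width `v` -/
def bs (W v M0 k : Nat) : Nat → Nat :=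
  Nat.rec (fun x => Nat.mod x M0) (fun k f x => cond (Nat.beq x 0) 0
    (Nat.add (f (Nat.land (msk W k) x))
      (Nat.shiftLeft (f (Nat.shiftRight x (shf W k))) (shf v k)))) k

/-- sum of the blocks of width `W` -/
def fold (W k : Nat) : Nat → Nat :=
  Nat.rec (fun x => x) (fun k f x =>
    f (Nat.add (Nat.land (msk W k) x) (Nat.shiftRight x (shf W k)))) k

/-- sizes `B0 B1 B2 ≤ 2 ^ l`, slot width `w`, coefficient width `u`, variables bounded by
`gp / gq` -/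
structure Cfg where
  B0 : Nat
  B1 : Nat
  B2 : Nat
  w : Nat
  u : Nat
  l : Nat
  gp : Nat
  gq : Nat

/-- narrow model: packed polynomial, packed norms along the three axes, total norm, remainder -/
structure T where
  U : Nat
  n0 : Nat
  n1 : Nat
  n2 : Nat
  n : Nat
  r : Nat

/-- wide model -/
structure W where
  U : Nat
  n : Nat
  r : Nat

def T.setr (a : T) (r : Nat) : T := ⟨a.U, a.n0, a.n1, a.n2, a.n, r⟩
def T.lift (a : T) : W := ⟨a.U, a.n, a.r⟩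
def W.add (x y : W) : W := ⟨Nat.add x.U y.U, Nat.add x.n y.n, Nat.add x.r y.r⟩
def W.smul (x : W) (k : Nat) : W := ⟨Nat.mul x.U k, Nat.mul x.n k, Nat.mul x.r k⟩
def W.shl (x : W) (k : Nat) : W :=
  ⟨Nat.shiftLeft x.U k, Nat.shiftLeft x.n k, Nat.shiftLeft x.r k⟩
def W.addr (x : W) (e : Nat) : W := ⟨x.U, x.n, Nat.add x.r e⟩
def W.const (k : Nat) : W := ⟨k, k, 0⟩
/-- another representative of the packed polynomial -/
def W.setU (x : W) (U : Nat) : W := ⟨U, x.n, x.r⟩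

namespace Cfg

variable (c : Cfg)

/-- change of the coefficient width -/
def wu (u : Nat) : Cfg := ⟨c.B0, c.B1, c.B2, c.w, u, c.l, c.gp, c.gq⟩

def S : Nat := Nat.mul c.B1 c.B2
def N : Nat := Nat.mul c.B0 c.S
def Q : Nat := p2 (Nat.mul c.w c.N)
def Q1 : Nat := Nat.sub c.Q 1
def u1 : Nat := Nat.sub c.u 1

/-- admissible parameters -/
def Ok : Prop :=
  1 ≤ c.u ∧ (3 ≤ c.B0 ∧ 3 ≤ c.B1 ∧ 3 ≤ c.B2) ∧ (c.B0 ≤ 2 ^ c.l ∧ c.B1 ≤ 2 ^ c.l ∧ c.B2 ≤ 2 ^ c.l) ∧
    c.N * 2 ^ (c.u - 1) < 2 ^ c.w - 1 ∧ c.u + c.l ≤ c.w ∧ 0 < c.gq ∧ c.gp ≤ c.gq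

instance : Decidable c.Ok := by unfold Ok; infer_instance

/-- upper bound of `2 ^ 16 * γ ^ n` -/
def gw (n : Nat) : Nat :=
  Nat.rec 65536 (fun _ a => Nat.add (Nat.div (Nat.mul a c.gp) c.gq) 1) n
/-- upper bound of `2 ^ 16 * ∑ i < n, γ ^ i` -/
def gs (n : Nat) : Nat :=
  Nat.rec 0 (fun _ a => Nat.add (Nat.div (Nat.mul a c.gp) c.gq) 65537) n
/-- weighted number of slots -/
def cnt : Nat :=
  Nat.add (Nat.shiftRight (Nat.mul (Nat.mul (c.gs c.B0) (c.gs c.B1)) (c.gs c.B2)) 48) 1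
def g0 : Nat := c.gw c.B0
def g1 : Nat := Nat.add (c.gw c.B1) 65536
def g2 : Nat := Nat.add (c.gw c.B2) 65536

def wS : Nat := Nat.mul c.w c.S
def wB : Nat := Nat.mul c.w c.B2
def mw : Nat := m2 c.w
def VO : Nat := hor c.wS c.B0 fun _ => ones c.w c.S
def VM : Nat := Nat.sub (Nat.shiftLeft c.VO c.u) c.VO
def Hb : Nat := Nat.shiftLeft c.VO c.u1
def QH : Nat := Nat.sub c.Q c.Hb
def C1 : Nat := Nat.sub c.Hb c.VO

/-- block width and masks for the sums of blocks -/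
def wC : Nat := Nat.mul c.w (Nat.sub c.S 1)
def mS : Nat := m2 c.wS
def mB : Nat := m2 c.wB
def mC : Nat := m2 c.wC
def k0 : Nat := hor c.wS c.B0 fun _ => c.mw
def k1 : Nat := hor c.wB c.B1 fun _ => c.mw
def sml : Bool := Nat.ble c.N 320
def wid : Bool := Nat.blt (Nat.add c.B0 1) c.S
def df (W M : Nat) : Nat := Nat.sub M (Nat.shiftRight M W)
/-- sums of the digits of the blocks of width `W`, `K` is the mask of their lowest digits -/
def sg (W K x : Nat) : Nat := df W (Nat.land K (Nat.div (Nat.shiftLeft x c.w) c.mw))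
/-- sum of the blocks of width `W`, where `M = 2 ^ W - 1` -/
def fd (W M x : Nat) : Nat := cond c.sml (Nat.mod x M) (fold W c.l x)
def mk3 (D n0 Z r : Nat) : T :=
  ⟨Nat.add D c.QH, n0, c.sg c.wB c.k1 Z, Nat.mod Z c.mB, Nat.mod n0 c.mw, r⟩
def mk2 (D A r : Nat) : T :=
  c.mk3 D (cond c.wid (c.fd c.wC c.mC (c.sg c.wS c.k0 A)) (bs c.wS c.w c.mw c.l A))
    (c.fd c.wS c.mS A) r
def mk1 (D r : Nat) : T :=
  c.mk2 D (Nat.add (Nat.xor D (Nat.add c.C1 (Nat.land (Nat.shiftRight D c.u1) c.VO))) c.VO) r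
/-- the model with coefficients `dig w D t % 2 ^ u - 2 ^ (u - 1)` -/
def mkT (D r : Nat) : T := c.mk1 (Nat.land c.VM D) r

def w0 : Nat := Nat.mul c.w c.B0
def tl (W x y : Nat) : Nat := Nat.mod (Nat.shiftRight (Nat.mul x y) W) c.mw
/-- bound for the terms of too high degree -/
def tt (a b : T) : Nat :=
  cond (Nat.blt (Nat.mul a.n b.n) c.mw)
    (Nat.add (Nat.shiftRight (Nat.add (Nat.add (Nat.mul (c.tl c.w0 a.n0 b.n0) c.g0)
      (Nat.mul (c.tl c.wS a.n1 b.n1) c.g1)) (Nat.mul (c.tl c.wB a.n2 b.n2) c.g2)) 16) 1)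
    (Nat.mul (Nat.mul a.n b.n) 2)
/-- remainder of a product -/
def mr (a b : T) : Nat :=
  Nat.add (c.tt a b)
    (Nat.add (Nat.add (Nat.mul a.r b.n) (Nat.mul b.r a.n)) (Nat.mul a.r b.r))
def mul (a b : T) : W := ⟨Nat.land c.Q1 (Nat.mul a.U b.U), Nat.mul a.n b.n, c.mr a b⟩
/-- square of a number, reduced -/
def sqU (x : Nat) : Nat := Nat.land c.Q1 (Nat.pow x 2)
def sqr (a : T) : W := ⟨c.sqU a.U, Nat.mul a.n a.n, c.mr a a⟩
def ngU (x : Nat) : Nat := Nat.sub c.Q (Nat.land c.Q1 x)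
def neg (x : W) : W := ⟨c.ngU x.U, x.n, x.r⟩
def sub (x y : W) : W := x.add (c.neg y)
/-- integer multiple -/
def zmul (k : Int) (x : W) : W :=
  match k with
  | Int.ofNat n => x.smul n
  | Int.negSucc n => c.neg (x.smul (Nat.add n 1))

def hfp (σ : Nat) : Nat := Nat.div (p2 σ) 2
def lmt (σ : Nat) : Nat := p2 (Nat.sub (Nat.add σ c.u) 1)
def off (σ : Nat) : Nat := Nat.mul c.VO (Nat.add (c.lmt σ) (hfp σ))
/-- division by `2 ^ σ` and rounding -/
def rnd (σ : Nat) (x : W) : T :=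
  cond (Nat.blt (Nat.add x.n (hfp σ)) (c.lmt σ) && Nat.ble (Nat.add σ c.u) c.w)
    (c.mkT (Nat.shiftRight (Nat.add x.U (c.off σ)) σ)
      (Nat.shiftRight (Nat.add (Nat.add x.r (Nat.mul c.cnt (hfp σ))) (m2 σ)) σ))
    (c.mkT c.Hb (Nat.add (Nat.shiftRight (Nat.add x.n x.r) σ) 1))

def sel (i : Fin 3) (a b d : Nat) : Nat := cond (Nat.beq i.1 0) a (cond (Nat.beq i.1 1) b d)
/-- size along an axis -/
def B (i : Fin 3) : Nat := sel i c.B0 c.B1 c.B2
/-- slot of a variable -/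
def sh (i : Fin 3) : Nat := sel i c.S c.B2 1
def rp (i : Fin 3) : Nat := sel i 1 c.B0 (Nat.mul c.B0 c.B1)
def ws (i : Fin 3) : Nat := Nat.mul c.w (c.sh i)
/-- `k * X i` -/
def var (i : Fin 3) (k : Nat) : W := ⟨Nat.shiftLeft k (c.ws i), k, 0⟩

def mask (i : Fin 3) (b : Nat) : Nat :=
  Nat.mul (Nat.mul (m2 (c.ws i)) (hor (c.ws i) (c.B i) fun k => Nat.land (Nat.shiftRight k b) 1))
    (hor (Nat.mul (c.ws i) (c.B i)) (c.rp i) fun _ => 1)
/-- multiplies every slot by the exponent of `X i` and divides by `X i` -/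
def wts (i : Fin 3) (D : Nat) : Nat :=
  Nat.shiftRight (sm c.l fun b => Nat.land (Nat.shiftLeft D b) (c.mask i b)) (c.ws i)
def wH (i : Fin 3) : Nat := Nat.sub c.Q (c.wts i c.Hb)
def dU (i : Fin 3) (D : Nat) : Nat := Nat.add (c.wts i D) (c.wH i)
def B' (i : Fin 3) : Nat := Nat.sub (c.B i) 1
/-- derivative of the polynomial, remainder times `L` -/
def der (i : Fin 3) (L : Nat) (a : T) : W :=
  ⟨c.dU i (Nat.sub a.U c.QH), Nat.mul a.n (c.B' i), Nat.mul a.r L⟩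
def ofs (U : Nat) : Nat := Nat.land c.Q1 (Nat.add U c.Hb)
/-- the same for a wide model; `x.n < 2 ^ (u - 1)` is needed -/
def derW (i : Fin 3) (L : Nat) (x : W) : W :=
  ⟨c.dU i (c.ofs x.U), Nat.mul x.n (c.B' i), Nat.mul x.r L⟩

def mK (K : Nat) : Nat := m2 (Nat.mul c.w K)
/-- the offset digits of the first `K` slots -/
def lo (K : Nat) (a : T) : Nat :=
  Nat.land (c.mK K) (Nat.add (Nat.land (c.mK K) a.U) (Nat.land (c.mK K) c.Hb))
/-- the coefficient in the slot `t < K`, plus `2 ^ (u - 1)` -/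
def cn (K : Nat) (a : T) (t : Nat) : Nat :=
  Nat.land (Nat.shiftRight (c.lo K a) (Nat.mul c.w t)) c.mw
/-- the coefficient in the slot `t < K` -/
def cz (K : Nat) (a : T) (t : Nat) : Int := Int.subNatNat (c.cn K a t) (p2 c.u1)
/-- its absolute value -/
def ca (K : Nat) (a : T) (t : Nat) : Nat :=
  Nat.add (Nat.sub (c.cn K a t) (p2 c.u1)) (Nat.sub (p2 c.u1) (c.cn K a t))
/-- constant coefficient plus `2 ^ (u - 1)` -/
def c0 (a : T) : Nat := c.cn 1 a 0
/-- bound for the distance to the constant coefficient -/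
def rad (a : T) : Nat := Nat.add (Nat.sub a.n (c.ca 1 a 0)) a.r

def nrm (a : T) : Nat := Nat.add a.n a.r
/-- bound for `2 ^ s - f * g` -/
def invE (s σ : Nat) (f g : T) : Nat :=
  Nat.shiftLeft (nrm (c.rnd σ (c.sub (W.const (p2 s)) (c.mul f (g.setr 0))))) σ
def invOk (s σ : Nat) (f g : T) : Bool := Nat.ble (Nat.mul 2 (c.invE s σ f g)) (p2 s)
/-- model of `2 ^ s / f` from the candidate `g` -/
def inv (s σ : Nat) (f g : T) : T :=
  g.setr (Nat.add (Nat.shiftRight (Nat.mul (Nat.mul 2 g.n) (c.invE s σ f g)) s) 1)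

end Cfg

end Pool.Agent.MP_48470b_gt.TT
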